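import Pool.Agent.H.MP_4881ff_pr.D

namespace Pool.Agent.H.MP_4881ff_pr
open MeasureTheory ProbabilityTheory Finset Real

theorem g1 {a : ℝ} (ha : 0 < a) {L : ℕ} (hL : 0 < L) :
    ∫ θ in (0 : ℝ)..1, exp (-(a * (1 - cos (2 * π * (L * θ))))) ≤ √(π / (8 * a)) := by
  set g : ℝ → ℝ := fun x => exp (-(a * (1 - cos (2 * π * x)))) with hg
  have cg : Continuous g := by fun_prop
  have pg : Function.Periodic g 1 := fun x => by
    simp only [hg]
    rw [mul_add, mul_one, cos_add_two_pi]
  have L0 : (L : ℝ) ≠ 0 := by positivity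
  have e := pg.intervalIntegral_add_zsmul_eq L 0 (fun _ _ => cg.intervalIntegrable _ _)
  have e2 := pg.intervalIntegral_add_eq 0 (-1 / 2)
  have e3 := intervalIntegral.integral_comp_mul_left (a := 0) (b := 1) g L0
  simp only [zero_add, zsmul_eq_mul, mul_one, mul_zero, Int.cast_natCast, smul_eq_mul] at e e2 e3
  rw [e, ← mul_assoc, inv_mul_cancel₀ L0, one_mul, e2] at e3
  refine e3.le.trans ?_
  rw [← integral_gaussian, intervalIntegral.integral_of_le (by norm_num)]
  have ig := integrable_exp_neg_mul_sq (b := 8 * a) (by positivity)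
  refine (setIntegral_mono_on (cg.integrableOn_Icc.mono_set Set.Ioc_subset_Icc_self) ig.integrableOn
    measurableSet_Ioc fun x hx => ?_).trans
    (setIntegral_le_integral ig (ae_of_all _ fun x => (exp_pos _).le))
  have h := cos_le_one_sub_mul_cos_sq (x := 2 * π * x) (by
    rw [abs_le]; constructor <;> nlinarith [hx.1, hx.2, pi_pos])
  have e4 : 2 / π ^ 2 * (2 * π * x) ^ 2 = 8 * x ^ 2 := by field_simp; ring
  refine exp_le_exp.2 ?_
  nlinarith

theorem g2 {a : ℝ} (ha : 0 < a) (I : Finset ℕ) (hI : I.Nonempty) (L : ℕ → ℕ)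
    (hL : ∀ i ∈ I, 0 < L i) :
    ∫ θ in Set.Ioc (0 : ℝ) 1, exp (-(a * ∑ i ∈ I, (1 - cos (2 * π * (L i * θ))))) ≤
      √(π / (8 * (a * I.card))) := by
  have j0 : (0 : ℝ) < I.card := by exact_mod_cast hI.card_pos
  rw [← intervalIntegral.integral_of_le zero_le_one]
  have h : ∀ θ : ℝ, exp (-(a * ∑ i ∈ I, (1 - cos (2 * π * (L i * θ))))) ≤
      ∑ i ∈ I, 1 / (I.card : ℝ) * exp (-(a * I.card * (1 - cos (2 * π * (L i * θ))))) := fun θ => by
    have := convexOn_exp.map_sum_le (t := I) (w := fun _ => 1 / (I.card : ℝ))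
      (p := fun i => -(a * I.card * (1 - cos (2 * π * (L i * θ))))) (fun _ _ => by positivity)
      (by rw [sum_const, nsmul_eq_mul]; field_simp) (fun _ _ => trivial)
    refine le_trans (le_of_eq ?_) this
    rw [mul_sum, ← sum_neg_distrib]
    refine congrArg _ (sum_congr rfl fun i _ => ?_)
    rw [smul_eq_mul]
    field_simp
  refine (intervalIntegral.integral_mono zero_le_one (Continuous.intervalIntegrable (by fun_prop) _ _)
    (Continuous.intervalIntegrable (by fun_prop) _ _) h).trans ?_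
  rw [intervalIntegral.integral_finsetSum fun i _ => Continuous.intervalIntegrable (by fun_prop) _ _]
  refine (sum_le_card_nsmul _ _ (1 / (I.card : ℝ) * √(π / (8 * (a * I.card)))) fun i hi => ?_).trans
    (le_of_eq ?_)
  · rw [intervalIntegral.integral_const_mul]
    exact mul_le_mul_of_nonneg_left (g1 (by positivity) (hL i hi)) (by positivity)
  · rw [nsmul_eq_mul]; field_simp

theorem orth (k : ℤ) : ∫ θ in Set.Ioc (0 : ℝ) 1, Complex.exp (2 * π * Complex.I * k * θ) =
    if k = 0 then 1 else 0 := by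
  rw [← intervalIntegral.integral_of_le zero_le_one]
  split_ifs with h
  · simp [h]
  · rw [integral_exp_mul_complex (by simp [h, pi_ne_zero])]
    simp [mul_comm _ (k : ℂ), Complex.exp_int_mul_two_pi_mul_I]

variable {d : ℕ} [NeZero d]

noncomputable def un (d : ℕ) : Measure (Fin d × Bool) := uniformOn Set.univ

instance : IsProbabilityMeasure (un d) := by unfold un; infer_instance

theorem phi (y : Fin d → ℝ) (c : Fin d) (hc : y c = 0) :
    ‖∫ e, Complex.exp (Complex.I * ∑ c', (y c' : ℂ) * vec e c') ∂un d‖ ≤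
      exp (-(1 / (d : ℝ) ^ 2 * ∑ c', (1 - cos (y c')))) := by
  have d0 : (1 : ℝ) ≤ d := by exact_mod_cast NeZero.one_le
  have e : ∫ e, Complex.exp (Complex.I * ∑ c', (y c' : ℂ) * vec e c') ∂un d =
      ((1 / d * ∑ c', cos (y c') : ℝ) : ℂ) := by
    rw [integral_fintype Integrable.of_finite, Fintype.sum_prod_type]
    push_cast
    rw [mul_sum]
    refine sum_congr rfl fun c' _ => ?_
    simp only [un, measureReal_def, uniformOn_univ, Measure.count_singleton, vec, Fintype.sum_bool,
      Int.cast_ite, mul_ite, sum_ite_eq', mem_univ, if_true, Int.cast_zero, mul_zero,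
      Bool.false_eq_true, if_false, Complex.cos, Complex.real_smul]
    simp [mul_comm Complex.I]
    ring
  rw [e, Complex.norm_real, Real.norm_eq_abs]
  refine le_trans ?_ (one_sub_le_exp_neg _)
  have s0 : 0 ≤ ∑ c', (1 - cos (y c')) := sum_nonneg fun _ _ => sub_nonneg.2 (cos_le_one _)
  have s1 : ∑ c', (1 - cos (y c')) ≤ 2 * (d - 1) := by
    rw [← sum_erase_add _ _ (mem_univ c), hc, cos_zero, sub_self, add_zero]
    refine (sum_le_card_nsmul _ _ 2 fun i _ => by linarith [neg_one_le_cos (y i)]).trans ?_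
    rw [card_erase_of_mem (mem_univ _), card_univ, Fintype.card_fin, nsmul_eq_mul,
      Nat.cast_sub NeZero.one_le]
    simp [mul_comm]
  have s2 : ∑ c', cos (y c') = d - ∑ c', (1 - cos (y c')) := by simp
  rw [s2]
  generalize ∑ c', (1 - cos (y c')) = s at *
  rw [abs_le]
  constructor
  · have : 1 / (d : ℝ) * (d - s) + (1 - 1 / d ^ 2 * s) = (2 * d ^ 2 - s * (d + 1)) / d ^ 2 := by
      field_simp; ring
    have : 0 ≤ (2 * (d : ℝ) ^ 2 - s * (d + 1)) / d ^ 2 := div_nonneg (by nlinarith) (by positivity)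
    linarith
  · have : (1 - 1 / (d : ℝ) ^ 2 * s) - 1 / (d : ℝ) * (d - s) = s * (d - 1) / d ^ 2 := by
      field_simp; ring
    have : 0 ≤ s * ((d : ℝ) - 1) / d ^ 2 := div_nonneg (by nlinarith) (by positivity)
    linarith

noncomputable def nu (d : ℕ) : Measure (ℕ → Fin d × Bool) := Measure.infinitePi fun _ => un d

instance : IsProbabilityMeasure (nu d) := by unfold nu; infer_instance

theorem prodI (I : Finset ℕ) (f : ℕ → Fin d × Bool → ℂ) :
    ∫ ξ, ∏ i ∈ I, f i (ξ i) ∂nu d = ∏ i ∈ I, ∫ e, f i e ∂un d := by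
  have h := integral_restrict_infinitePi (fun _ : ℕ => un d) (s := I)
    (f := fun y => ∏ i : I, f i (y i)) (measurable_of_countable _).aestronglyMeasurable
  rw [integral_fintype_prod_eq_prod (fun i : I => f i), prod_coe_sort I (fun i => ∫ e, f i e ∂un d)] at h
  rw [← h]
  congr 1
  ext ξ
  exact (prod_coe_sort I (fun i => f i (ξ i))).symm

end Pool.Agent.H.MP_4881ff_pr
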