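import Pool.Agent.H.MP_4881ff_pr.A

namespace Pool.Agent.H.MP_4881ff_pr
open MeasureTheory ProbabilityTheory Finset Real Filter

variable {d : ℕ} [NeZero d]

omit [NeZero d] in
theorem vec_cont (i : ℕ) (c : Fin d) : Continuous fun ξ : ℕ → Fin d × Bool => vec (ξ i) c :=
  (continuous_of_discreteTopology (f := fun e : Fin d × Bool => vec e c)).comp (continuous_apply i)

theorem AC (I : Finset ℕ) (hI : I.Nonempty) (L : ℕ → ℕ) (hL : ∀ i ∈ I, 0 < L i) (c : Fin d)
    (a : Fin d → ℤ) :
    (nu d).real {ξ | ∀ c', c' ≠ c → ∑ i ∈ I, (L i : ℤ) * vec (ξ i) c' = a c'} ≤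
      √(π / (8 * (1 / (d : ℝ) ^ 2 * I.card))) ^ (d - 1) := by
  have d0 : (0 : ℝ) < d := by exact_mod_cast NeZero.pos d
  set m : Measure (Fin d → ℝ) := Measure.pi fun _ => volume.restrict (Set.Ioc (0 : ℝ) 1) with hm
  set δ : Fin d → ℤ := fun c' => if c' = c then 0 else 1 with hδ
  set k : (ℕ → Fin d × Bool) → Fin d → ℤ := fun ξ c' =>
    δ c' * (∑ i ∈ I, (L i : ℤ) * vec (ξ i) c' - a c') with hk
  have ck : ∀ c', Continuous fun ξ => k ξ c' := fun c' => by
    have := fun i => vec_cont (d := d) i c'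
    simp only [hk]
    fun_prop
  set F : (ℕ → Fin d × Bool) → (Fin d → ℝ) → ℂ := fun ξ θ =>
    ∏ c', Complex.exp (2 * π * Complex.I * k ξ c' * θ c') with hF
  set A := {ξ : ℕ → Fin d × Bool | ∀ c', c' ≠ c → ∑ i ∈ I, (L i : ℤ) * vec (ξ i) c' = a c'} with hA
  have eA : A = ⋂ c', (fun ξ => k ξ c') ⁻¹' {0} := by
    ext ξ
    simp only [hA, hk, hδ, Set.mem_ofPred_eq, Set.mem_iInter, Set.mem_preimage, Set.mem_singleton_iff]
    refine forall_congr' fun c' => ?_
    by_cases h : c' = c <;> simp [h, sub_eq_zero]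
  have mA : MeasurableSet A := eA ▸ .iInter fun c' => (ck c').measurable (measurableSet_singleton _)
  have h1 : ∀ ξ, ∫ θ, F ξ θ ∂m = ((A.indicator 1 ξ : ℝ) : ℂ) := fun ξ => by
    simp only [hF, hm]
    rw [integral_fintype_prod_eq_prod
      (fun c' (x : ℝ) => Complex.exp (2 * π * Complex.I * k ξ c' * x))]
    simp only [orth, Fintype.prod_boole, eA, Set.indicator, Set.mem_iInter, Set.mem_preimage,
      Set.mem_singleton_iff]
    split_ifs <;> simp
  have h2 : ∀ θ, ‖∫ ξ, F ξ θ ∂nu d‖ ≤ ∏ c', exp (-(1 / (d : ℝ) ^ 2 *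
      ∑ i ∈ I, (1 - cos (2 * π * (L i * (δ c' * θ c')))))) := fun θ => by
    have e : ∀ ξ, F ξ θ = Complex.exp ((-(2 * π * ∑ c', δ c' * a c' * θ c') : ℝ) * Complex.I) *
        ∏ i ∈ I, Complex.exp (Complex.I *
          ∑ c', ((2 * π * (L i * (δ c' * θ c')) : ℝ) : ℂ) * vec (ξ i) c') := fun ξ => by
      simp only [hF, hk]
      rw [← Complex.exp_sum, ← Complex.exp_sum, ← Complex.exp_add, ← mul_sum, sum_comm]
      congr 1
      push_cast
      simp only [mul_sum, neg_mul, sum_mul, ← sum_neg_distrib, ← sum_add_distrib, mul_sub, sub_mul]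
      refine sum_congr rfl fun c' _ => ?_
      rw [sub_eq_neg_add]
      congr 1
      · ring
      · exact sum_congr rfl fun i _ => by ring
    simp only [e]
    rw [integral_const_mul, prodI I (fun i e => Complex.exp (Complex.I *
      ∑ c', ((2 * π * (L i * (δ c' * θ c')) : ℝ) : ℂ) * vec e c')), norm_mul,
      Complex.norm_exp_ofReal_mul_I, one_mul, norm_prod]
    refine (prod_le_prod (fun _ _ => norm_nonneg _) fun i _ =>
      phi (fun c' => 2 * π * (L i * (δ c' * θ c'))) c (by simp [hδ])).trans (le_of_eq ?_)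
    rw [← exp_sum, ← exp_sum, sum_neg_distrib, sum_neg_distrib, ← mul_sum, ← mul_sum, sum_comm]
  have cF : Continuous (Function.uncurry F) := by
    refine continuous_finsetProd _ fun c' _ => Complex.continuous_exp.comp ?_
    have : Continuous fun p : (ℕ → Fin d × Bool) × (Fin d → ℝ) => ((k p.1 c' : ℤ) : ℂ) :=
      (continuous_of_discreteTopology (f := fun z : ℤ => (z : ℂ))).comp ((ck c').comp continuous_fst)
    fun_prop
  have iF : Integrable (Function.uncurry F) ((nu d).prod m) :=
    Integrable.of_bound cF.aestronglyMeasurable 1 (ae_of_all _ fun p => le_of_eq (by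
      simp only [Function.uncurry, hF, norm_prod]
      refine prod_eq_one fun c' _ => ?_
      rw [← Complex.norm_exp_ofReal_mul_I (2 * π * k p.1 c' * p.2 c')]
      congr 2
      push_cast
      ring))
  have h3 := integral_integral_swap iF
  simp only [h1] at h3
  rw [integral_complex_ofReal, integral_indicator_one mA] at h3
  have h4 := (congrArg norm h3).le.trans (norm_integral_le_of_norm_le (μ := m)
    (Integrable.of_bound (Continuous.aestronglyMeasurable (by fun_prop)) 1 (ae_of_all _ fun θ => ?_))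
    (ae_of_all _ h2))
  · rw [Complex.norm_real, Real.norm_of_nonneg measureReal_nonneg, hm,
      integral_fintype_prod_eq_prod (fun c' (x : ℝ) => exp (-(1 / (d : ℝ) ^ 2 *
      ∑ i ∈ I, (1 - cos (2 * π * (L i * (δ c' * x))))))), ← mul_prod_erase _ _ (mem_univ c)] at h4
    refine h4.trans ?_
    rw [← one_mul (_ ^ (d - 1))]
    refine mul_le_mul (by simp [hδ]) ?_ (prod_nonneg fun _ _ => integral_nonneg fun _ => (exp_pos _).le)
      zero_le_one
    refine (prod_le_prod (fun _ _ => integral_nonneg fun _ => (exp_pos _).le) (g := fun _ =>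
      √(π / (8 * (1 / (d : ℝ) ^ 2 * I.card)))) fun c' hc => ?_).trans (le_of_eq ?_)
    · simp only [hδ, if_neg (ne_of_mem_erase hc), Int.cast_one, one_mul]
      exact g2 (by positivity) I hI L hL
    · rw [prod_const, card_erase_of_mem (mem_univ _), card_univ, Fintype.card_fin]
  · rw [norm_prod]
    refine prod_le_one (fun _ _ => norm_nonneg _) fun c' _ => ?_
    rw [Real.norm_of_nonneg (exp_pos _).le, exp_le_one_iff, neg_nonpos]
    exact mul_nonneg (by positivity) (sum_nonneg fun _ _ => sub_nonneg.2 (cos_le_one _))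

def last (b : ℕ → Bool) : ℕ → ℕ
  | 0 => 0
  | n + 1 => if b (n + 1) then n + 1 else last b n

omit [NeZero d] in
theorem step_eq (b : ℕ → Bool) (ξ : ℕ → Fin d × Bool) (n : ℕ) : step b ξ n = ξ (last b n) := by
  induction n with
  | zero => rfl
  | succ n ih => simp only [step, last, ih]; split_ifs <;> rfl

theorem last_le (b : ℕ → Bool) (n : ℕ) : last b n ≤ n := by
  induction n with
  | zero => rfl
  | succ n ih => simp only [last]; split_ifs <;> omega

theorem last_last (b : ℕ → Bool) (n : ℕ) : last b (last b n) = last b n := by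
  induction n with
  | zero => rfl
  | succ n ih =>
    by_cases h : b (n + 1) = true
    · simp [last, h]
    · simpa [last, h] using ih

omit [NeZero d] in
theorem walk_eq (b : ℕ → Bool) (ξ : ℕ → Fin d × Bool) (n : ℕ) (c : Fin d) :
    walk b ξ n c = walk b ξ (last b n) c + ((n : ℤ) - last b n) * vec (ξ (last b n)) c := by
  induction n with
  | zero => simp [last]
  | succ n ih =>
    by_cases h : b (n + 1) = true
    · simp [last, h]
    · have : last b (n + 1) = last b n := by simp [last, h]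
      rw [this, walk, sum_range_succ, ← walk, ih, step_eq]
      push_cast
      ring

theorem fin_ae (hd : 4 ≤ d) (b : ℕ → Bool) (c : Fin d) (a : Fin d → ℤ) :
    ∀ᵐ ξ ∂nu d, {t | last b t = t ∧ ∀ c', c' ≠ c → walk b ξ t c' = a c'}.Finite := by
  have d0 : (0 : ℝ) < d := by exact_mod_cast NeZero.pos d
  set J : {t // last b t = t ∧ 0 < t} → ℕ := fun t => ((range t.1).image (last b)).card with hJ
  have sJ : StrictMono J := fun s t h => card_lt_card ⟨image_subset_image (range_mono h.le),
    fun e => by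
      obtain ⟨k, k1, k2⟩ := mem_image.1 (e (mem_image.2 ⟨s.1, mem_range.2 h, s.2.1⟩))
      have := last_le b k
      have := mem_range.1 k1
      omega⟩
  set g : ℕ → ℝ := fun j => √(π / (8 * (1 / (d : ℝ) ^ 2 * j))) ^ (d - 1) with hg
  have sg : Summable g := by
    have := (summable_nat_rpow.2 (show -(((d - 1 : ℕ) : ℝ) / 2) < -1 by
      have : (3 : ℝ) ≤ ((d - 1 : ℕ) : ℝ) := by exact_mod_cast (by omega : 3 ≤ d - 1)
      linarith)).mul_left (√(π / (8 * (1 / (d : ℝ) ^ 2))) ^ (d - 1))
    refine this.congr fun j => ?_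
    simp only [hg]
    rw [← mul_assoc, ← div_div π _ (j : ℝ), sqrt_div' _ (Nat.cast_nonneg j), div_pow,
      div_eq_mul_inv _ (_ ^ _), rpow_neg (Nat.cast_nonneg j), sqrt_eq_rpow (j : ℝ),
      ← rpow_natCast ((j : ℝ) ^ _), ← rpow_mul (Nat.cast_nonneg j)]
    congr 3
    ring
  have h := ae_finite_setOfPred_mem (μ := nu d) (s := fun t : {t // last b t = t ∧ 0 < t} =>
    {ξ | ∀ c', c' ≠ c → walk b ξ t.1 c' = a c'}) (ne_top_of_le_ne_top
      (sg.tsum_ofReal_ne_top) ((ENNReal.tsum_le_tsum fun t => ?_).trans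
        (ENNReal.tsum_comp_le_tsum_of_injective sJ.injective fun j => ENNReal.ofReal (g j))))
  · filter_upwards [h] with ξ hξ
    refine ((hξ.image Subtype.val).insert 0).subset fun t ht => ?_
    rcases Nat.eq_zero_or_pos t with e | e
    · exact Or.inl e
    · exact Or.inr ⟨⟨t, ht.1, e⟩, ht.2, rfl⟩
  · have := AC ((range t.1).image (last b)) ((nonempty_range_iff.2 t.2.2.ne').image _)
      (fun i => #{k ∈ range t.1 | last b k = i}) (fun i hi => by
        obtain ⟨k, k1, k2⟩ := mem_image.1 hi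
        exact card_pos.2 ⟨k, mem_filter.2 ⟨k1, k2⟩⟩) c a
    rw [← ofReal_measureReal]
    refine ENNReal.ofReal_le_ofReal (le_trans (le_of_eq ?_) this)
    congr 1
    ext ξ
    simp only [Set.mem_ofPred_eq, walk, step_eq]
    refine forall_congr' fun c' => ?_
    rw [sum_comp (fun i => vec (ξ i) c') (last b)]
    simp only [nsmul_eq_mul]

theorem fixed (hd : 4 ≤ d) (b : ℕ → Bool) : ∀ᵐ ξ ∂nu d,
    Tendsto (fun n => √(∑ c, (walk b ξ n c : ℝ) ^ 2)) atTop atTop := by
  filter_upwards [ae_all_iff.2 fun c => ae_all_iff.2 fun a => fin_ae hd b c a] with ξ h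
  have f : ∀ a, {n | walk b ξ n = a}.Finite := fun a => by
    refine Set.Finite.of_finite_image (f := last b) ((Set.finite_iUnion fun c => h c a).subset ?_) ?_
    · rintro _ ⟨n, hn, rfl⟩
      refine Set.mem_iUnion.2 ⟨(ξ (last b n)).1, last_last b n, fun c' hc => ?_⟩
      have := walk_eq b ξ n c'
      rw [vec, if_neg hc, mul_zero, add_zero] at this
      rw [← this, hn]
    · intro n hn n' hn' e
      have e1 := walk_eq b ξ n (ξ (last b n)).1
      have e2 := walk_eq b ξ n' (ξ (last b n)).1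
      rw [← e] at e2
      rw [show walk b ξ n = walk b ξ n' from hn.trans hn'.symm, e2, vec, if_pos rfl] at e1
      split_ifs at e1 <;> omega
  refine tendsto_sqrt_atTop.comp (tendsto_atTop.2 fun M => ?_)
  obtain ⟨N, hN⟩ := exists_nat_gt M
  rw [← Nat.cofinite_eq_atTop, eventually_cofinite]
  refine ((Fintype.piFinset fun _ => Icc (-(N : ℤ)) N).finite_toSet.biUnion fun a _ => f a).subset
    fun n hn => Set.mem_biUnion (x := walk b ξ n) (Fintype.mem_piFinset.2 fun c => ?_) rfl
  have := single_le_sum (f := fun c => (walk b ξ n c : ℝ) ^ 2) (fun _ _ => sq_nonneg _) (mem_univ c)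
  have h2 : (walk b ξ n c) ^ 2 < N := by
    exact_mod_cast (this.trans (not_le.1 hn).le).trans_lt hN
  rw [mem_Icc]
  constructor <;> nlinarith

omit [NeZero d] in
theorem step_meas (n : ℕ) :
    Measurable fun ω : (ℕ → Bool) × (ℕ → Fin d × Bool) => step ω.1 ω.2 n := by
  induction n with
  | zero => exact (measurable_pi_apply 0).comp measurable_snd
  | succ n ih =>
    have h : Measurable fun ω : (ℕ → Bool) × (ℕ → Fin d × Bool) => ω.1 (n + 1) := by fun_prop
    exact Measurable.ite (h (measurableSet_singleton true))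
      ((measurable_pi_apply _).comp measurable_snd) ih

theorem main (hd : 4 ≤ d) (μ : Measure (ℕ → Bool)) : ∀ᵐ ω ∂μ.prod (nu d),
    Tendsto (fun n => √(∑ c, (walk ω.1 ω.2 n c : ℝ) ^ 2)) atTop atTop := by
  refine (Measure.ae_prod_iff_ae_ae (measurableSet_tendsto _ fun n => ?_)).2
    (ae_of_all _ fun b => fixed hd b)
  refine Measurable.sqrt (Finset.measurable_sum _ fun c _ => Measurable.pow_const ?_ 2)
  simp only [walk, Int.cast_sum]
  exact Finset.measurable_sum _ fun k _ =>
    (measurable_of_countable fun e : Fin d × Bool => (vec e c : ℝ)).comp (step_meas k)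

end Pool.Agent.H.MP_4881ff_pr
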