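import Pool.Agent.H.MP_4881ff_pr.B

namespace Pool.Agent.H.MP_4881ff_pr
open MeasureTheory ProbabilityTheory Finset Real Filter

theorem k1 {a η : ℝ} (ha : 0 < a) (hη : 0 < η) (s : ℝ) {L : ℕ} (hL : 0 < L) :
    ∫ θ in (0 : ℝ)..η, exp (-(a * (1 - cos (2 * π * (L * (θ - s)))))) ≤
      (η + 1 / L) * √(π / (8 * a)) := by
  set g : ℝ → ℝ := fun x => exp (-(a * (1 - cos (2 * π * x)))) with hg
  have cg : Continuous g := by fun_prop
  have pg : Function.Periodic g 1 := fun x => by
    simp only [hg]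
    rw [mul_add, mul_one, cos_add_two_pi]
  have L0 : (0 : ℝ) < L := by positivity
  have e := pg.intervalIntegral_add_zsmul_eq ⌈L * η⌉ (L * (0 - s))
    (fun _ _ => cg.intervalIntegrable _ _)
  have e2 := pg.intervalIntegral_add_eq (L * (0 - s)) 0
  have e3 := intervalIntegral.integral_comp_mul_left (a := 0 - s) (b := η - s) g L0.ne'
  have e4 := intervalIntegral.integral_comp_sub_right (a := 0) (b := η) (fun x => g (L * x)) s
  have e5 := g1 ha Nat.one_pos
  have e6 := intervalIntegral.integral_mono_interval (μ := volume) (f := g) (a := L * (0 - s))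
    (b := L * (η - s)) (c := L * (0 - s)) (d := L * (0 - s) + ⌈L * η⌉ • (1 : ℝ)) le_rfl
    (by nlinarith) (by rw [zsmul_eq_mul]; linarith [Int.le_ceil (L * η)])
    (ae_of_all _ fun x => (exp_pos _).le) (cg.intervalIntegrable _ _)
  simp only [Nat.cast_one, one_mul] at e5
  rw [e, e2, zsmul_eq_mul, zero_add] at e6
  refine e4.le.trans (e3.le.trans ?_)
  rw [smul_eq_mul, inv_mul_le_iff₀ L0]
  refine e6.trans ((mul_le_mul (Int.ceil_lt_add_one _).le e5 (intervalIntegral.integral_nonneg
    zero_le_one fun x _ => (exp_pos _).le) (by positivity)).trans (le_of_eq ?_))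
  field_simp

theorem k2 {a η B : ℝ} (ha : 0 < a) (hη : 0 < η) (s : ℝ) (I : Finset ℕ) (hI : I.Nonempty)
    (L : ℕ → ℕ) (hL : ∀ i ∈ I, 0 < L i ∧ η + 1 / L i ≤ B) :
    ∫ θ in Set.Ioc (0 : ℝ) η, exp (-(a * ∑ i ∈ I, (1 - cos (2 * π * (L i * (θ - s)))))) ≤
      B * √(π / (8 * (a * I.card))) := by
  have j0 : (0 : ℝ) < I.card := by exact_mod_cast hI.card_pos
  rw [← intervalIntegral.integral_of_le hη.le]
  have h : ∀ θ : ℝ, exp (-(a * ∑ i ∈ I, (1 - cos (2 * π * (L i * θ))))) ≤
      ∑ i ∈ I, 1 / (I.card : ℝ) * exp (-(a * I.card * (1 - cos (2 * π * (L i * θ))))) := fun θ => by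
    have := convexOn_exp.map_sum_le (t := I) (w := fun _ => 1 / (I.card : ℝ))
      (p := fun i => -(a * I.card * (1 - cos (2 * π * (L i * θ))))) (fun _ _ => by positivity)
      (by rw [sum_const, nsmul_eq_mul]; field_simp) (fun _ _ => trivial)
    refine le_trans (le_of_eq ?_) this
    rw [mul_sum, ← sum_neg_distrib]
    refine congrArg _ (sum_congr rfl fun i _ => ?_)
    rw [smul_eq_mul]
    field_simp
  refine (intervalIntegral.integral_mono hη.le (Continuous.intervalIntegrable (by fun_prop) _ _)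
    (Continuous.intervalIntegrable (by fun_prop) _ _) fun θ => h (θ - s)).trans ?_
  rw [intervalIntegral.integral_finsetSum fun i _ => Continuous.intervalIntegrable (by fun_prop) _ _]
  refine (sum_le_card_nsmul _ _ (1 / (I.card : ℝ) * (B * √(π / (8 * (a * I.card)))))
    fun i hi => ?_).trans (le_of_eq ?_)
  · rw [intervalIntegral.integral_const_mul]
    exact mul_le_mul_of_nonneg_left ((k1 (by positivity) hη s (hL i hi).1).trans
      (mul_le_mul_of_nonneg_right (hL i hi).2 (sqrt_nonneg _))) (by positivity)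
  · rw [nsmul_eq_mul]; field_simp

theorem k3 {a : ℝ} (ha : 0 < a) (V : Finset ℕ) (hV : V.Nonempty) :
    ∫ θ in Set.Ioc (0 : ℝ) 1, exp (-(a * ∑ v ∈ V, (1 - cos (2 * π * (v * θ))))) ≤
      (4 + 2 / a) / V.card := by
  have j0 : (0 : ℝ) < V.card := by exact_mod_cast hV.card_pos
  set T : ℝ → ℂ := fun θ => ∑ v ∈ V, Complex.exp (2 * π * Complex.I * v * θ) with hT
  have cT : Continuous T := by fun_prop
  have e1 : ∫ θ in Set.Ioc (0 : ℝ) 1, ‖T θ‖ ^ 2 = V.card := by
    have e : ∀ θ, ((‖T θ‖ ^ 2 : ℝ) : ℂ) = ∑ v ∈ V, ∑ w ∈ V,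
        Complex.exp (2 * π * Complex.I * ((v : ℤ) - w : ℤ) * θ) := fun θ => by
      rw [← Complex.normSq_eq_norm_sq, ← Complex.mul_conj, hT, map_sum, sum_mul_sum]
      refine sum_congr rfl fun v _ => sum_congr rfl fun w _ => ?_
      rw [← Complex.exp_conj, ← Complex.exp_add]
      simp only [map_mul, Complex.conj_ofReal, Complex.conj_I, map_natCast, map_ofNat]
      push_cast
      ring_nf
    apply Complex.ofReal_injective
    rw [← integral_complex_ofReal]
    simp only [e]
    rw [integral_finsetSum _ fun v _ => (Continuous.integrableOn_Icc (by fun_prop)).mono_set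
      Set.Ioc_subset_Icc_self, Complex.ofReal_natCast, card_eq_sum_ones]
    push_cast
    refine sum_congr rfl fun v hv => ?_
    rw [integral_finsetSum _ fun v _ => (Continuous.integrableOn_Icc (by fun_prop)).mono_set
      Set.Ioc_subset_Icc_self]
    have := fun w : ℕ => orth ((v : ℤ) - w)
    push_cast at this
    simp only [this, sub_eq_zero, Nat.cast_inj, sum_ite_eq, hv, if_true]
  have e2 : ∀ θ : ℝ, exp (-(a * ∑ v ∈ V, (1 - cos (2 * π * (v * θ))))) ≤
      2 / a / V.card + 4 / V.card ^ 2 * ‖T θ‖ ^ 2 := fun θ => by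
    have r : ∑ v ∈ V, cos (2 * π * (v * θ)) ≤ ‖T θ‖ := by
      refine le_trans (le_of_eq ?_) (Complex.re_le_norm _)
      rw [hT, Complex.re_sum]
      refine sum_congr rfl fun v _ => ?_
      rw [← Complex.exp_ofReal_mul_I_re]
      congr 2
      push_cast
      ring
    have s0 : 0 ≤ ∑ v ∈ V, (1 - cos (2 * π * (v * θ))) :=
      sum_nonneg fun _ _ => sub_nonneg.2 (cos_le_one _)
    rw [sum_sub_distrib, sum_const, nsmul_eq_mul, mul_one] at s0 ⊢
    rcases le_total ‖T θ‖ (V.card / 2) with h | h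
    · refine le_trans ?_ (le_add_of_nonneg_right (by positivity))
      rw [exp_neg, inv_le_comm₀ (exp_pos _) (by positivity)]
      refine le_trans ?_ (add_one_le_exp _)
      rw [div_div, inv_div]
      nlinarith
    · refine le_trans ?_ (le_add_of_nonneg_left (by positivity))
      refine (exp_le_one_iff.2 (neg_nonpos.2 (mul_nonneg ha.le s0))).trans ?_
      rw [div_mul_eq_mul_div, le_div_iff₀ (by positivity)]
      nlinarith
  have iT : IntegrableOn (fun θ => ‖T θ‖ ^ 2) (Set.Ioc (0 : ℝ) 1) :=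
    (Continuous.integrableOn_Icc (by fun_prop)).mono_set Set.Ioc_subset_Icc_self
  refine (integral_mono ((Continuous.integrableOn_Icc (by fun_prop)).mono_set
    Set.Ioc_subset_Icc_self) ((integrable_const _).add (iT.const_mul _)) e2).trans (le_of_eq ?_)
  simp only [Pi.add_apply]
  rw [integral_add (integrable_const _) (iT.const_mul _), integral_const_mul, e1]
  simp
  field_simp
  ring

variable {d : ℕ} [NeZero d]

theorem phi2 (y : Fin d → ℝ) :
    ‖∫ e, Complex.exp (Complex.I * ∑ c', (y c' : ℂ) * vec e c') ∂un d‖ ≤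
      exp (-(1 / (4 * d : ℝ) * ∑ c', (1 - cos (2 * y c')))) := by
  have d0 : (1 : ℝ) ≤ d := by exact_mod_cast NeZero.one_le
  have e : ∫ e, Complex.exp (Complex.I * ∑ c', (y c' : ℂ) * vec e c') ∂un d =
      ((1 / d * ∑ c', cos (y c') : ℝ) : ℂ) := by
    rw [integral_fintype Integrable.of_finite, Fintype.sum_prod_type]
    push_cast
    rw [mul_sum]
    refine sum_congr rfl fun c' _ => ?_
    simp only [un, measureReal_def, uniformOn_univ, Measure.count_singleton, vec, Fintype.sum_bool,
      Int.cast_ite, mul_ite, sum_ite_eq', mem_univ, if_true, Int.cast_zero, mul_zero,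
      Bool.false_eq_true, if_false, Complex.cos, Complex.real_smul]
    simp [mul_comm Complex.I]
    ring
  rw [e, Complex.norm_real, Real.norm_eq_abs]
  refine abs_le_of_sq_le_sq ?_ (exp_pos _).le
  rw [← exp_nat_mul]
  refine le_trans ?_ (add_one_le_exp _)
  have a := sq_sum_le_card_mul_sum_sq (s := univ) (f := fun c' => cos (y c'))
  have b : ∑ c', (1 - cos (2 * y c')) = 2 * d - 2 * ∑ c', cos (y c') ^ 2 := by
    simp only [cos_two_mul, sum_sub_distrib, ← mul_sum, sum_const, card_univ, Fintype.card_fin,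
      nsmul_eq_mul]
    ring
  rw [card_univ, Fintype.card_fin] at a
  rw [b, mul_pow]
  refine (mul_le_mul_of_nonneg_left a (by positivity)).trans (le_of_eq ?_)
  push_cast
  field_simp
  ring

end Pool.Agent.H.MP_4881ff_pr
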