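import Mathlib

namespace Pool.Agent.H.MP_4881ff_pr

/-- the unit vector ± e_i of ℤ^d coded by e = (i, sign) -/
def vec {d : ℕ} (e : Fin d × Bool) (c : Fin d) : ℤ :=
  if c = e.1 then (if e.2 then 1 else -1) else 0

/-- the steps: step n is the fresh direction ξ n if n = 0 or b n, and the previous step otherwise -/
def step {d : ℕ} (b : ℕ → Bool) (ξ : ℕ → Fin d × Bool) : ℕ → Fin d × Bool
  | 0 => ξ 0
  | n + 1 => if b (n + 1) then ξ (n + 1) else step b ξ n

/-- position after n steps -/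
def walk {d : ℕ} (b : ℕ → Bool) (ξ : ℕ → Fin d × Bool) (n : ℕ) (c : Fin d) : ℤ :=
  ∑ k ∈ Finset.range n, vec (step b ξ k) c

end Pool.Agent.H.MP_4881ff_pr
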