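import Pool.Agent.H.MP_4881ff_pr.C

namespace Pool.Agent.H.MP_4881ff_pr
open MeasureTheory ProbabilityTheory Finset Real Filter

noncomputable def GG (d : ℕ) (I : Finset ℕ) (L : ℕ → ℕ) (θ : ℝ) : ℝ :=
  exp (-(1 / (4 * d : ℝ) * ∑ i ∈ I, (1 - cos (2 * π * ((2 * L i : ℕ) * θ)))))

theorem GG_cont (d : ℕ) (I : Finset ℕ) (L : ℕ → ℕ) : Continuous (GG d I L) := by
  unfold GG; fun_prop

theorem GG_mono (d : ℕ) {I K : Finset ℕ} (h : K ⊆ I) (L : ℕ → ℕ) (θ : ℝ) :
    GG d I L θ ≤ GG d K L θ :=
  exp_le_exp.2 (neg_le_neg (mul_le_mul_of_nonneg_left (sum_le_sum_of_subset_of_nonneg h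
    fun _ _ _ => sub_nonneg.2 (cos_le_one _)) (by positivity)))

theorem GG_le (d : ℕ) (I : Finset ℕ) (L : ℕ → ℕ) (θ : ℝ) : GG d I L θ ≤ 1 :=
  (GG_mono d (empty_subset I) L θ).trans (by simp [GG])

variable {d : ℕ} [NeZero d]

theorem AC3 (I : Finset ℕ) (L : ℕ → ℕ) (c : Fin d) (a : Fin d → ℤ) {l η A Z : ℝ} (hl : 0 < l)
    (hη : η = 1 / (8 * l)) (hA : ∫ θ in Set.Ioc (0 : ℝ) 1, GG d I L θ ≤ A)
    (hZ : ∀ s, ∫ θ in Set.Ioc (0 : ℝ) η, GG d I L (θ - s) ≤ η * Z) :
    (nu d).real {ξ | (∀ c', c' ≠ c → ∑ i ∈ I, (L i : ℤ) * vec (ξ i) c' = a c') ∧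
      |((∑ i ∈ I, (L i : ℤ) * vec (ξ i) c - a c : ℤ) : ℝ)| ≤ l} ≤ 4 * (Z * A ^ (d - 1)) := by
  have d0 : (0 : ℝ) < d := by exact_mod_cast NeZero.pos d
  have η0 : 0 < η := by rw [hη]; positivity
  set m : Measure (Fin d → ℝ) := Measure.pi fun c' =>
    volume.restrict (Set.Ioc (0 : ℝ) (if c' = c then η else 1)) with hm
  set M := (volume.restrict (Set.Ioc (0 : ℝ) η)).prod m with hM
  set k : (ℕ → Fin d × Bool) → Fin d → ℤ := fun ξ c' =>
    ∑ i ∈ I, (L i : ℤ) * vec (ξ i) c' - a c' with hk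
  have ck : ∀ c', Continuous fun ξ => k ξ c' := fun c' => by
    have := fun i => vec_cont (d := d) i c'
    simp only [hk]
    fun_prop
  set y : ℝ × (Fin d → ℝ) → Fin d → ℝ := fun p c' => p.2 c' - (if c' = c then 1 else 0) * p.1
    with hy
  have cy : ∀ c', Continuous fun p => y p c' := fun c' => by simp only [hy]; fun_prop
  set F : (ℕ → Fin d × Bool) → ℝ × (Fin d → ℝ) → ℂ := fun ξ p =>
    ∏ c', Complex.exp (2 * π * Complex.I * k ξ c' * y p c') with hF
  set ψ : ℤ → ℂ := fun u => ∫ θ in Set.Ioc (0 : ℝ) η, Complex.exp (2 * π * Complex.I * u * θ)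
    with hψ
  set H : (Fin d → ℤ) → ℝ := fun u => ‖ψ (u c)‖ ^ 2 * if ∀ c' ∈ univ.erase c, u c' = 0 then 1 else 0
    with hH
  have h1 : ∀ ξ, ∫ p, F ξ p ∂M = ((H (k ξ) : ℝ) : ℂ) := fun ξ => by
    have e : ∀ p, F ξ p = (starRingEnd ℂ) (Complex.exp (2 * π * Complex.I * k ξ c * p.1)) *
        ∏ c', Complex.exp (2 * π * Complex.I * k ξ c' * p.2 c') := fun p => by
      simp only [hF, hy]
      rw [← Complex.exp_sum, ← Complex.exp_sum, ← Complex.exp_conj, ← Complex.exp_add]
      simp only [map_mul, Complex.conj_ofReal, Complex.conj_I, map_intCast, map_ofNat]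
      push_cast
      simp only [mul_sub, sum_sub_distrib, apply_ite Complex.ofReal, ite_mul, mul_ite,
        Complex.ofReal_zero, zero_mul, mul_zero, sum_ite_eq', mem_univ, if_true]
      push_cast
      ring_nf
    simp only [e, hM, hm]
    rw [integral_prod_mul (fun s : ℝ => (starRingEnd ℂ) (Complex.exp (2 * π * Complex.I * k ξ c * s)))
      (fun θ : Fin d → ℝ => ∏ c', Complex.exp (2 * π * Complex.I * k ξ c' * θ c')), integral_conj,
      integral_fintype_prod_eq_prod
      (fun c' (x : ℝ) => Complex.exp (2 * π * Complex.I * k ξ c' * x)),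
      ← mul_prod_erase _ _ (mem_univ c), if_pos rfl, ← mul_assoc, mul_comm ((starRingEnd ℂ) _),
      Complex.mul_conj, Complex.normSq_eq_norm_sq,
      prod_congr rfl fun c' hc => by rw [if_neg (ne_of_mem_erase hc), orth], prod_boole]
    simp only [hH, hψ]
    split_ifs <;> simp
  have h2 : ∀ p, ‖∫ ξ, F ξ p ∂nu d‖ ≤ ∏ c', GG d I L (y p c') := fun p => by
    have e : ∀ ξ, F ξ p = Complex.exp ((-(2 * π * ∑ c', a c' * y p c') : ℝ) * Complex.I) *
        ∏ i ∈ I, Complex.exp (Complex.I *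
          ∑ c', ((2 * π * (L i * y p c') : ℝ) : ℂ) * vec (ξ i) c') := fun ξ => by
      simp only [hF, hk]
      rw [← Complex.exp_sum, ← Complex.exp_sum, ← Complex.exp_add, ← mul_sum, sum_comm]
      congr 1
      push_cast
      simp only [mul_sum, neg_mul, sum_mul, ← sum_neg_distrib, ← sum_add_distrib, mul_sub, sub_mul]
      refine sum_congr rfl fun c' _ => ?_
      rw [sub_eq_neg_add]
      congr 1
      · ring
      · exact sum_congr rfl fun i _ => by ring
    simp only [e]
    rw [integral_const_mul, prodI I (fun i e => Complex.exp (Complex.I *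
      ∑ c', ((2 * π * (L i * y p c') : ℝ) : ℂ) * vec e c')), norm_mul,
      Complex.norm_exp_ofReal_mul_I, one_mul, norm_prod]
    refine (prod_le_prod (fun _ _ => norm_nonneg _) fun i _ =>
      phi2 (fun c' => 2 * π * (L i * y p c'))).trans (le_of_eq ?_)
    simp only [GG]
    rw [← exp_sum, ← exp_sum, sum_neg_distrib, sum_neg_distrib, ← mul_sum, ← mul_sum, sum_comm]
    congr 3
    refine sum_congr rfl fun _ _ => sum_congr rfl fun _ _ => ?_
    push_cast
    ring_nf
  have cF : Continuous (Function.uncurry F) := by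
    refine continuous_finsetProd _ fun c' _ => Complex.continuous_exp.comp ?_
    have : Continuous fun p : (ℕ → Fin d × Bool) × ℝ × (Fin d → ℝ) => ((k p.1 c' : ℤ) : ℂ) :=
      (continuous_of_discreteTopology (f := fun z : ℤ => (z : ℂ))).comp ((ck c').comp continuous_fst)
    have := cy c'
    fun_prop
  have iF : Integrable (Function.uncurry F) ((nu d).prod M) :=
    Integrable.of_bound cF.aestronglyMeasurable 1 (ae_of_all _ fun p => le_of_eq (by
      simp only [Function.uncurry, hF, norm_prod]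
      refine prod_eq_one fun c' _ => ?_
      rw [← Complex.norm_exp_ofReal_mul_I (2 * π * k p.1 c' * y p.2 c')]
      congr 2
      push_cast
      ring))
  have h3 := integral_integral_swap iF
  simp only [h1] at h3
  rw [integral_complex_ofReal] at h3
  have cG := GG_cont d I L
  have iG : Integrable (fun p => ∏ c', GG d I L (y p c')) M :=
    Integrable.of_bound (Continuous.aestronglyMeasurable (by fun_prop)) 1 (ae_of_all _ fun p => by
      rw [norm_prod]
      refine prod_le_one (fun _ _ => norm_nonneg _) fun c' _ => ?_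
      exact (Real.norm_of_nonneg (exp_pos _).le).le.trans (GG_le _ _ _ _))
  have h4 := (congrArg norm h3).le.trans (norm_integral_le_of_norm_le iG (ae_of_all _ h2))
  have h5 : ∫ p, ∏ c', GG d I L (y p c') ∂M ≤ η * (η * Z * A ^ (d - 1)) := by
    rw [hM, integral_prod _ iG]
    refine (integral_mono_of_nonneg (ae_of_all _ fun s => integral_nonneg fun _ =>
      prod_nonneg fun _ _ => (exp_pos _).le) (integrable_const (η * Z * A ^ (d - 1)))
      (ae_of_all _ fun s => ?_)).trans (le_of_eq (by simp [η0.le]))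
    simp only [hy, hm]
    rw [integral_fintype_prod_eq_prod
      (fun c' (x : ℝ) => GG d I L (x - (if c' = c then 1 else 0) * s)),
      ← mul_prod_erase _ _ (mem_univ c), if_pos rfl, if_pos rfl, one_mul]
    refine mul_le_mul (hZ s) ?_ (prod_nonneg fun _ _ => integral_nonneg fun _ => (exp_pos _).le)
      ((integral_nonneg fun _ => (exp_pos _).le).trans (hZ s))
    refine (prod_le_prod (fun _ _ => integral_nonneg fun _ => (exp_pos _).le) (g := fun _ => A)
      fun c' hc => ?_).trans (le_of_eq ?_)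
    · simp only [if_neg (ne_of_mem_erase hc), zero_mul, sub_zero]
      exact hA
    · rw [prod_const, card_erase_of_mem (mem_univ _), card_univ, Fintype.card_fin]
  have cH : Continuous fun ξ => H (k ξ) :=
    (continuous_of_discreteTopology (f := H)).comp (continuous_pi ck)
  have H0 : ∀ u, 0 ≤ H u := fun u => by simp only [hH]; positivity
  have h6 := mul_meas_ge_le_integral_of_nonneg (μ := nu d) (ae_of_all _ fun ξ => H0 (k ξ))
    (cH.integrable_of_hasCompactSupport (HasCompactSupport.of_compactSpace _)) (η ^ 2 / 4)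
  have h7 := (h6.trans (le_norm_self _)).trans ((Complex.norm_real _).ge.trans (h4.trans h5))
  refine (measureReal_mono (fun ξ hξ => ?_)).trans
    (le_of_mul_le_mul_left (h7.trans (le_of_eq (by ring))) (by positivity))
  simp only [Set.mem_ofPred_eq, hH]
  rw [if_pos fun c' hc => sub_eq_zero.2 (hξ.1 c' (ne_of_mem_erase hc)), mul_one]
  have r : η / 2 ≤ ‖ψ (k ξ c)‖ := by
    refine le_trans ?_ (Complex.re_le_norm _)
    have i1 : IntegrableOn (fun θ : ℝ => Complex.exp (2 * π * Complex.I * k ξ c * θ))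
        (Set.Ioc (0 : ℝ) η) :=
      (Continuous.integrableOn_Icc (by fun_prop)).mono_set Set.Ioc_subset_Icc_self
    have i2 := integral_re i1
    simp only [RCLike.re_to_complex] at i2
    simp only [hψ]
    rw [← i2]
    refine le_trans (le_of_eq (by simp [η0.le]; ring)) (setIntegral_mono_on
      (integrable_const (1 / 2 : ℝ)) i1.re measurableSet_Ioc fun x hx => ?_)
    rw [show 2 * π * Complex.I * k ξ c * x = ((2 * π * (k ξ c * x) : ℝ) : ℂ) * Complex.I by
      push_cast; ring, Complex.exp_ofReal_mul_I_re]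
    refine le_trans ?_ one_sub_sq_div_two_le_cos
    have u : |(k ξ c : ℝ) * x| ≤ l * η := by
      rw [abs_mul, abs_of_pos hx.1]
      exact mul_le_mul hξ.2 hx.2 hx.1.le hl.le
    rw [hη, show l * (1 / (8 * l)) = 1 / 8 by field_simp] at u
    have u2 := sq_le_sq' (abs_le.1 u).1 (abs_le.1 u).2
    have u3 : π ^ 2 ≤ 16 := by nlinarith [pi_le_four, pi_pos]
    nlinarith [mul_le_mul u3 u2 (sq_nonneg _) (by norm_num)]
  nlinarith

end Pool.Agent.H.MP_4881ff_pr
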