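import Pool.Agent.H.MP_4881ff_pr.E

namespace Pool.Agent.H.MP_4881ff_pr
open MeasureTheory ProbabilityTheory Finset Real Filter

theorem last_mono (b : ℕ → Bool) : Monotone (last b) := monotone_nat_of_le_succ fun n => by
  have := last_le b n
  simp only [last]; split_ifs <;> omega

noncomputable def len (b : ℕ → Bool) (i : ℕ) : ℕ := {k | last b k = i}.ncard

def II (b : ℕ → Bool) (t : ℕ) : Finset ℕ := (range t).filter fun i => last b i = i

noncomputable def kk (b : ℕ → Bool) (t : ℕ) : ℕ := #((II b t).filter fun i => len b t ≤ len b i)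

def good (b : ℕ → Bool) (t : ℕ) : Prop := kk b t ≤ (#(II b t)).sqrt.sqrt

noncomputable instance (b : ℕ → Bool) : DecidablePred (good b) := Classical.decPred _

theorem len_eq {b : ℕ → Bool} {i t : ℕ} (h : i < t) (ht : last b t = t) :
    len b i = #{k ∈ range t | last b k = i} := by
  rw [len, ← Set.ncard_coe_finset]
  congr 1
  ext k
  simp only [Set.mem_ofPred_eq, coe_filter, mem_range, iff_and_self]
  intro e
  by_contra c
  have := last_mono b (not_lt.1 c)
  omega

theorem len_pos {b : ℕ → Bool} {i t : ℕ} (h : i ∈ II b t) (ht : last b t = t) : 0 < len b i := by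
  rw [len_eq (mem_range.1 (mem_filter.1 h).1) ht]
  exact card_pos.2 ⟨i, mem_filter.2 ⟨(mem_filter.1 h).1, (mem_filter.1 h).2⟩⟩

theorem walk_sum {d : ℕ} {b : ℕ → Bool} {t : ℕ} (ht : last b t = t) (ξ : ℕ → Fin d × Bool)
    (c : Fin d) : walk b ξ t c = ∑ i ∈ II b t, (len b i : ℤ) * vec (ξ i) c := by
  simp only [walk, step_eq]
  rw [sum_comp (fun i => vec (ξ i) c) (last b)]
  refine sum_congr ?_ fun i hi => by
    rw [nsmul_eq_mul, len_eq (mem_range.1 (mem_filter.1 hi).1) ht]
  ext i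
  simp only [II, mem_image, mem_filter, mem_range]
  constructor
  · rintro ⟨k, k1, rfl⟩
    exact ⟨(last_le b k).trans_lt k1, last_last b k⟩
  · exact fun h => ⟨i, h.1, h.2⟩

theorem II_mono (b : ℕ → Bool) {s t : ℕ} (h : s ≤ t) : II b s ⊆ II b t :=
  filter_subset_filter _ (range_mono h)

theorem rank (b : ℕ → Bool) (t : ℕ) (h0 : 0 < t) : (#((II b t).filter (good b)) + 1) ^ 4 ≤
    81 * #(II b t) * #((II b t).image fun i => 2 * len b i) ^ 4 := by
  have z : 0 ∈ II b t := mem_filter.2 ⟨mem_range.2 h0, rfl⟩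
  have a := card_le_mul_card_image (f := fun i => 2 * len b i) ((II b t).filter (good b))
    ((#(II b t)).sqrt.sqrt + 1) fun v hv => by
      obtain ⟨i, i1, i2⟩ := mem_image.1 hv
      obtain ⟨j, j1, j2⟩ := exists_max_image {a ∈ (II b t).filter (good b) | 2 * len b a = v} id
        ⟨i, mem_filter.2 ⟨i1, i2⟩⟩
      have j3 := mem_filter.1 j1
      have j4 := mem_filter.1 j3.1
      have j5 := mem_range.1 (mem_filter.1 j4.1).1
      rw [← card_erase_add_one j1]
      refine Nat.add_le_add_right ((card_le_card fun x hx => ?_).trans (le_trans j4.2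
        (Nat.sqrt_le_sqrt (Nat.sqrt_le_sqrt (card_le_card (II_mono b j5.le)))))) 1
      have x1 := mem_of_mem_erase hx
      have x2 := mem_filter.1 x1
      refine mem_filter.2 ⟨mem_filter.2 ⟨mem_range.2 (lt_of_le_of_ne (j2 x x1) (ne_of_mem_erase hx)),
        (mem_filter.1 (mem_filter.1 x2.1).1).2⟩, by omega⟩
  have a2 := card_le_card (image_subset_image (f := fun i => 2 * len b i)
    (filter_subset (good b) (II b t)))
  have a3 := card_pos.2 ⟨_, mem_image_of_mem (fun i => 2 * len b i) z⟩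
  have a4 := card_pos.2 ⟨_, z⟩
  have a5 := Nat.sqrt_pos.2 (Nat.sqrt_pos.2 a4)
  have a6 := (Nat.pow_le_pow_left (Nat.sqrt_le' (#(II b t)).sqrt) 2).trans (Nat.sqrt_le' _)
  have a7 : #((II b t).filter (good b)) + 1 ≤
      3 * (#(II b t)).sqrt.sqrt * #((II b t).image fun i => 2 * len b i) := by
    nlinarith [Nat.mul_le_mul_left ((#(II b t)).sqrt.sqrt + 1) a2]
  refine (Nat.pow_le_pow_left a7 4).trans ?_
  rw [mul_pow, mul_pow, ← pow_mul] at *
  exact Nat.mul_le_mul_right _ (Nat.mul_le_mul_left _ a6)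

variable {d : ℕ} [NeZero d]

theorem BC (Q : ℕ → Prop) (ρ : ℕ → ℕ) (hρ : ∀ s t, Q s → Q t → s < t → ρ s < ρ t)
    (E : ℕ → Set (ℕ → Fin d × Bool)) (n : ℕ) (hn : 0 < n) (C : ℝ)
    (h : ∀ t, Q t → (nu d).real (E t) ^ n ≤ C / ρ t ^ (n + 1)) :
    ∀ᵐ ξ ∂nu d, {t | Q t ∧ ξ ∈ E t}.Finite := by
  have n0 : (0 : ℝ) < n := by exact_mod_cast hn
  have sJ : StrictMono fun t : {t // Q t} => ρ t := fun s t e => hρ _ _ s.2 t.2 e
  set g : ℕ → ℝ := fun j => (|C| / j ^ (n + 1)) ^ (n : ℝ)⁻¹ with hg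
  have sg : Summable g := by
    have := (summable_nat_rpow_inv.2 (show 1 < ((n + 1 : ℕ) : ℝ) * (n : ℝ)⁻¹ by
      rw [← div_eq_mul_inv, one_lt_div n0]; push_cast; linarith)).mul_left (|C| ^ (n : ℝ)⁻¹)
    refine this.congr fun j => ?_
    simp only [hg]
    rw [div_rpow (abs_nonneg _) (by positivity), div_eq_mul_inv, rpow_mul (Nat.cast_nonneg j),
      rpow_natCast]
  have h := ae_finite_setOfPred_mem (μ := nu d) (s := fun t : {t // Q t} => E t)
    (ne_top_of_le_ne_top (sg.tsum_ofReal_ne_top) ((ENNReal.tsum_le_tsum fun t => ?_).trans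
        (ENNReal.tsum_comp_le_tsum_of_injective sJ.injective fun j => ENNReal.ofReal (g j))))
  · filter_upwards [h] with ξ hξ
    exact (hξ.image Subtype.val).subset fun t ht => ⟨⟨t, ht.1⟩, ht.2, rfl⟩
  · rw [← ofReal_measureReal]
    refine ENNReal.ofReal_le_ofReal ((le_rpow_inv_iff_of_pos measureReal_nonneg (by positivity)
      n0).2 ?_)
    rw [rpow_natCast]
    exact (h t t.2).trans (div_le_div_of_nonneg_right (le_abs_self _) (by positivity))

def EE (b : ℕ → Bool) (c : Fin d) (a : Fin d → ℤ) (t : ℕ) : Set (ℕ → Fin d × Bool) :=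
  {ξ | (∀ c', c' ≠ c → walk b ξ t c' = a c') ∧ |((walk b ξ t c - a c : ℤ) : ℝ)| ≤ len b t}

theorem EE_le (hd : 3 ≤ d) (b : ℕ → Bool) (c : Fin d) (a : Fin d → ℤ) {t : ℕ} (ht : last b t = t)
    (h0 : 0 < t) (hl : 0 < len b t) : ∃ x : ℝ, 0 ≤ x ∧ x ≤ π / (8 * (1 / (4 * d) * #(II b t))) ∧
      x ≤ ((4 + 2 / (1 / (4 * d))) / #((II b t).image fun i => 2 * len b i)) ^ 2 ∧
      (nu d).real (EE b c a t) ≤ 4 * x ∧ (0 < kk b t →
      (nu d).real (EE b c a t) ≤ 20 * √(π / (8 * (1 / (4 * d) * kk b t))) * x) := by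
  have d0 : (0 : ℝ) < d := by exact_mod_cast NeZero.pos d
  have l0 : (0 : ℝ) < len b t := by exact_mod_cast hl
  have z : (II b t).Nonempty := ⟨0, mem_filter.2 ⟨mem_range.2 h0, rfl⟩⟩
  have cG := fun I => GG_cont d I (len b)
  set A := ∫ θ in Set.Ioc (0 : ℝ) 1, GG d (II b t) (len b) θ with hA
  have A0 : 0 ≤ A := integral_nonneg fun _ => (exp_pos _).le
  have A1 : A ≤ 1 := (integral_mono_of_nonneg (ae_of_all _ fun _ => (exp_pos _).le)
    (integrable_const 1) (ae_of_all _ (GG_le d _ _))).trans (by simp)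
  have A2 := pow_le_pow_of_le_one A0 A1 (by omega : 2 ≤ d - 1)
  have key := fun Z hZ => AC3 (II b t) (len b) c a (Z := Z) l0 rfl hA.ge hZ
  simp only [← walk_sum ht] at key
  refine ⟨A ^ 2, by positivity, ?_, pow_le_pow_left₀ A0 (le_trans ?_ (k3 (by positivity) _
    (z.image _))) 2, (key 1 fun s => ?_).trans (by linarith), fun hk => (key (5 *
      √(π / (8 * (1 / (4 * d) * kk b t)))) fun s => ?_).trans ?_⟩
  · exact (le_sqrt A0 (by positivity)).1 (g2 (by positivity) _ z (fun i => 2 * len b i)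
      fun i hi => Nat.mul_pos two_pos (len_pos hi ht))
  · refine integral_mono_of_nonneg (ae_of_all _ fun _ => (exp_pos _).le)
      ((Continuous.integrableOn_Icc (by fun_prop)).mono_set Set.Ioc_subset_Icc_self)
      (ae_of_all _ fun θ => exp_le_exp.2 (neg_le_neg (mul_le_mul_of_nonneg_left ?_ (by positivity))))
    exact sum_image_le_of_nonneg (f := fun v : ℕ => 1 - cos (2 * π * (v * θ)))
      fun _ _ => sub_nonneg.2 (cos_le_one _)
  · exact (integral_mono_of_nonneg (ae_of_all _ fun _ => (exp_pos _).le)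
      (integrable_const 1) (ae_of_all _ fun _ => GG_le d _ _ _)).trans (by simp)
  · have := cG ((II b t).filter fun i => len b t ≤ len b i)
    refine (integral_mono_of_nonneg (ae_of_all _ fun _ => (exp_pos _).le)
      ((Continuous.integrableOn_Icc (by fun_prop)).mono_set Set.Ioc_subset_Icc_self)
      (ae_of_all _ fun θ => GG_mono d (filter_subset (fun i => len b t ≤ len b i) _) _ (θ - s))).trans
      ((k2 (B := 1 / (8 * len b t) * 5) (by positivity) (by positivity) s _ (card_pos.1 hk)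
        (fun i => 2 * len b i) fun i hi => ?_).trans (le_of_eq (mul_assoc _ _ _)))
    have e := (mem_filter.1 hi).2
    refine ⟨by omega, ?_⟩
    have e2 : (len b t : ℝ) ≤ len b i := by exact_mod_cast e
    have e3 := one_div_le_one_div_of_le (by positivity) (mul_le_mul_of_nonneg_left e2 zero_le_two)
    have e4 : 1 / (2 * (len b t : ℝ)) = 4 * (1 / (8 * len b t)) := by field_simp; norm_num
    push_cast
    linarith
  · nlinarith [mul_le_mul_of_nonneg_left A2 (sqrt_nonneg (π / (8 * (1 / (4 * d) * kk b t))))]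

theorem fin3 (hd : 3 ≤ d) (b : ℕ → Bool) (c : Fin d) (a : Fin d → ℤ) :
    ∀ᵐ ξ ∂nu d, {t | last b t = t ∧ (len b t = 0 ∨ ξ ∈ EE b c a t)}.Finite := by
  have d0 : (0 : ℝ) < d := by exact_mod_cast NeZero.pos d
  have lt : ∀ (p : ℕ → Prop) [DecidablePred p] s t, last b s = s → p s → s < t →
      #((II b s).filter p) < #((II b t).filter p) := fun p _ s t h1 h2 h3 =>
    card_lt_card ⟨filter_subset_filter _ (II_mono b h3.le), fun e => by
      have := e (mem_filter.2 ⟨mem_filter.2 ⟨mem_range.2 h3, h1⟩, h2⟩)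
      simp [II] at this⟩
  have h1 := BC (fun t => last b t = t ∧ 0 < t ∧ 0 < len b t ∧ good b t)
    (fun t => #((II b t).filter (good b)) + 1)
    (fun s t hs _ e => Nat.succ_lt_succ (lt _ s t hs.1 hs.2.2.2 e)) (EE b c a) 3 (by norm_num)
    (64 * 81 * (π / (8 * (1 / (4 * d)))) * (4 + 2 / (1 / (4 * d))) ^ 4) fun t ht => by
      obtain ⟨x, x0, x1, x2, x3, -⟩ := EE_le hd b c a ht.1 ht.2.1 ht.2.2.1
      have r : ((#((II b t).filter (good b)) + 1 : ℕ) : ℝ) ^ 4 ≤
          81 * #(II b t) * (#((II b t).image fun i => 2 * len b i) : ℝ) ^ 4 := by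
        exact_mod_cast rank b t ht.2.1
      have z : (II b t).Nonempty := ⟨0, mem_filter.2 ⟨mem_range.2 ht.2.1, rfl⟩⟩
      have j0 : (0 : ℝ) < #(II b t) := by exact_mod_cast z.card_pos
      have j1 : (0 : ℝ) < #((II b t).image fun i => 2 * len b i) := by
        exact_mod_cast (z.image _).card_pos
      refine (pow_le_pow_left₀ measureReal_nonneg x3 3).trans (le_trans ?_
        (div_le_div_of_nonneg_left (by positivity) (by positivity) r))
      have := mul_le_mul x1 (pow_le_pow_left₀ x0 x2 2) (by positivity) (by positivity)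
      calc (4 * x) ^ 3 = 64 * (x * x ^ 2) := by ring
        _ ≤ 64 * _ := mul_le_mul_of_nonneg_left this (by norm_num)
        _ = _ := by field_simp
  have h2 := BC (fun t => last b t = t ∧ 0 < t ∧ 0 < len b t ∧ ¬ good b t)
    (fun t => #(II b t)) (fun s t hs _ e => by simpa using lt (fun _ => True) s t hs.1 trivial e)
    (EE b c a) 8 (by norm_num) (20 ^ 8 * (π / (8 * (1 / (4 * d)))) ^ 12) fun t ht => by
      obtain ⟨x, x0, x1, -, -, x3⟩ := EE_le hd b c a ht.1 ht.2.1 ht.2.2.1
      have g := not_le.1 ht.2.2.2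
      have k0 : 0 < kk b t := by omega
      have r : (#(II b t) : ℝ) ≤ (kk b t : ℝ) ^ 4 := by
        have := Nat.sqrt_lt'.1 (Nat.sqrt_lt'.1 g)
        rw [← pow_mul] at this
        exact_mod_cast this.le
      have z : (II b t).Nonempty := ⟨0, mem_filter.2 ⟨mem_range.2 ht.2.1, rfl⟩⟩
      have j0 : (0 : ℝ) < #(II b t) := by exact_mod_cast z.card_pos
      have k1 : (0 : ℝ) < kk b t := by exact_mod_cast k0
      refine (pow_le_pow_left₀ measureReal_nonneg ((x3 k0).trans
        (mul_le_mul_of_nonneg_left x1 (by positivity))) 8).trans ?_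
      have sq8 : ∀ u : ℝ, 0 ≤ u → √u ^ 8 = u ^ 4 := fun u hu => by
        rw [show 8 = 2 * 4 from rfl, pow_mul, sq_sqrt hu]
      rw [mul_pow, mul_pow, sq8 _ (by positivity)]
      calc _ = 20 ^ 8 * (π / (8 * (1 / (4 * d)))) ^ 12 / (#(II b t) ^ 8 * kk b t ^ 4 : ℝ) := by
            field_simp
        _ ≤ _ := div_le_div_of_nonneg_left (by positivity) (by positivity)
            (by rw [pow_succ]; exact mul_le_mul_of_nonneg_left r (by positivity))
  have h3 : {t | last b t = t ∧ len b t = 0}.Finite := Set.Subsingleton.finite fun s hs t ht => by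
    rcases lt_trichotomy s t with e | e | e
    · exact absurd hs.2 (len_pos (mem_filter.2 ⟨mem_range.2 e, hs.1⟩) ht.1).ne'
    · exact e
    · exact absurd ht.2 (len_pos (mem_filter.2 ⟨mem_range.2 e, ht.1⟩) hs.1).ne'
  filter_upwards [h1, h2] with ξ a1 a2
  refine (((a1.union a2).union h3).insert 0).subset fun t ht => ?_
  by_cases e0 : t = 0
  · exact Or.inl e0
  by_cases e1 : len b t = 0
  · exact Or.inr (Or.inr ⟨ht.1, e1⟩)
  by_cases e2 : good b t
  · exact Or.inr (Or.inl (Or.inl ⟨⟨ht.1, by omega, by omega, e2⟩, ht.2.resolve_left e1⟩))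
  · exact Or.inr (Or.inl (Or.inr ⟨⟨ht.1, by omega, by omega, e2⟩, ht.2.resolve_left e1⟩))

theorem fixed3 (hd : 3 ≤ d) (b : ℕ → Bool) : ∀ᵐ ξ ∂nu d,
    Tendsto (fun n => √(∑ c, (walk b ξ n c : ℝ) ^ 2)) atTop atTop := by
  filter_upwards [ae_all_iff.2 fun c => ae_all_iff.2 fun a => fin3 hd b c a] with ξ h
  have f : ∀ a, {n | walk b ξ n = a}.Finite := fun a => by
    refine Set.Finite.of_finite_image (f := last b) ((Set.finite_iUnion fun c => h c a).subset ?_) ?_
    · rintro _ ⟨n, hn, rfl⟩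
      refine Set.mem_iUnion.2 ⟨(ξ (last b n)).1, last_last b n, or_iff_not_imp_left.2 fun l =>
        ⟨fun c' hc => ?_, ?_⟩⟩
      · have := walk_eq b ξ n c'
        rw [vec, if_neg hc, mul_zero, add_zero] at this
        rw [← this, hn]
      · have e := walk_eq b ξ n (ξ (last b n)).1
        have e2 : (Set.Icc (last b n) n).ncard ≤ len b (last b n) := Set.ncard_le_ncard
          (fun k hk => le_antisymm (last_mono b hk.2) ((last_last b n).ge.trans (last_mono b hk.1)))
          (Set.finite_of_ncard_ne_zero l)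
        rw [← coe_Icc, Set.ncard_coe_finset, Nat.card_Icc] at e2
        have e3 := last_le b n
        rw [vec, if_pos rfl, show walk b ξ n = a from hn] at e
        have : |walk b ξ (last b n) (ξ (last b n)).1 - a (ξ (last b n)).1| ≤ len b (last b n) := by
          rw [abs_le]
          split_ifs at e <;> omega
        exact_mod_cast this
    · intro n hn n' hn' e
      have e1 := walk_eq b ξ n (ξ (last b n)).1
      have e2 := walk_eq b ξ n' (ξ (last b n)).1
      rw [← e] at e2
      rw [show walk b ξ n = walk b ξ n' from hn.trans hn'.symm, e2, vec, if_pos rfl] at e1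
      split_ifs at e1 <;> omega
  refine tendsto_sqrt_atTop.comp (tendsto_atTop.2 fun M => ?_)
  obtain ⟨N, hN⟩ := exists_nat_gt M
  rw [← Nat.cofinite_eq_atTop, eventually_cofinite]
  refine ((Fintype.piFinset fun _ => Icc (-(N : ℤ)) N).finite_toSet.biUnion fun a _ => f a).subset
    fun n hn => Set.mem_biUnion (x := walk b ξ n) (Fintype.mem_piFinset.2 fun c => ?_) rfl
  have := single_le_sum (f := fun c => (walk b ξ n c : ℝ) ^ 2) (fun _ _ => sq_nonneg _) (mem_univ c)
  have h2 : (walk b ξ n c) ^ 2 < N := by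
    exact_mod_cast (this.trans (not_le.1 hn).le).trans_lt hN
  rw [mem_Icc]
  constructor <;> nlinarith

theorem main3 (hd : 3 ≤ d) (μ : Measure (ℕ → Bool)) : ∀ᵐ ω ∂μ.prod (nu d),
    Tendsto (fun n => √(∑ c, (walk ω.1 ω.2 n c : ℝ) ^ 2)) atTop atTop := by
  refine (Measure.ae_prod_iff_ae_ae (measurableSet_tendsto _ fun n => ?_)).2
    (ae_of_all _ fun b => fixed3 hd b)
  refine Measurable.sqrt (Finset.measurable_sum _ fun c _ => Measurable.pow_const ?_ 2)
  simp only [walk, Int.cast_sum]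
  exact Finset.measurable_sum _ fun k _ =>
    (measurable_of_countable fun e : Fin d × Bool => (vec e c : ℝ)).comp (step_meas k)

end Pool.Agent.H.MP_4881ff_pr
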