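import Pool.Agent.H.MP_4881ff_pr.F

namespace Pool.Agent.H.MP_4881ff_pr
open MeasureTheory ProbabilityTheory Finset Real Filter

theorem lin {d : ℕ} (b : ℕ → Bool) (hb : ∀ᶠ n in atTop, b n = false) (ξ : ℕ → Fin d × Bool) :
    Tendsto (fun n => √(∑ c, (walk b ξ n c : ℝ) ^ 2)) atTop atTop := by
  obtain ⟨N, hN⟩ := eventually_atTop.1 hb
  have e : ∀ n, N ≤ n → last b n = last b N := fun n hn => by
    induction n, hn using Nat.le_induction with
    | base => rfl
    | succ n h ih => simp [last, hN (n + 1) (by omega), ih]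
  set t := last b N
  refine tendsto_atTop_mono' _ ?_ (tendsto_atTop_add_const_right _
    (-(t : ℝ) - |(walk b ξ t (ξ t).1 : ℝ)|) tendsto_natCast_atTop_atTop)
  filter_upwards [eventually_ge_atTop N] with n hn
  refine le_trans ?_ (abs_le_sqrt (single_le_sum (f := fun c => (walk b ξ n c : ℝ) ^ 2)
    (fun _ _ => sq_nonneg _) (mem_univ (ξ t).1)))
  rw [walk_eq b ξ n, e n hn, vec, if_pos rfl]
  push_cast
  split_ifs
  · exact le_trans (by linarith [neg_abs_le (walk b ξ t (ξ t).1 : ℝ)]) (le_abs_self _)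
  · exact le_trans (by linarith [le_abs_self (walk b ξ t (ξ t).1 : ℝ)]) (neg_le_abs _)

def sw (ξ : ℕ → Fin 1 × Bool) : ℕ → Fin 1 × Bool := fun i => ((ξ i).1, !(ξ i).2)

theorem sw_map : (nu 1).map sw = nu 1 := by
  refine (Measure.infinitePi_map_pi (fun _ : ℕ => un 1)
    (f := fun _ e => (e.1, !e.2)) (fun _ => measurable_of_countable _)).trans ?_
  unfold nu
  congr 1
  ext1 i
  refine Measure.ext_of_singleton fun e => ?_
  rw [Measure.map_apply (measurable_of_countable _) (measurableSet_singleton _),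
    show (fun e : Fin 1 × Bool => (e.1, !e.2)) ⁻¹' {e} = {(e.1, !e.2)} by
      ext x; obtain ⟨x1, x2⟩ := x; obtain ⟨e1, e2⟩ := e; cases x2 <;> cases e2 <;> simp]
  simp [un, uniformOn_univ]

theorem walk_sw (b : ℕ → Bool) (ξ : ℕ → Fin 1 × Bool) (n : ℕ) :
    walk b (sw ξ) n 0 = -walk b ξ n 0 := by
  simp only [walk, step_eq, ← sum_neg_distrib]
  refine sum_congr rfl fun k _ => ?_
  simp only [vec, sw]
  by_cases h : (ξ (last b k)).2 = true <;> split_ifs <;> simp_all

theorem rec1 (b : ℕ → Bool) (hb : ∃ᶠ n in atTop, b n = true) :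
    ∀ᵐ ξ ∂nu 1, ¬ Tendsto (fun n => √(∑ c, (walk b ξ n c : ℝ) ^ 2)) atTop atTop := by
  set A := {ξ : ℕ → Fin 1 × Bool | Tendsto (fun n => (walk b ξ n 0 : ℝ)) atTop atTop} with hA
  have tail : MeasurableSet[limsup (fun i => MeasurableSpace.comap
      (fun ξ : ℕ → Fin 1 × Bool => ξ i) inferInstance) atTop] A := by
    rw [limsup_eq_iInf_iSup_of_nat, MeasurableSpace.measurableSet_iInf]
    intro N
    obtain ⟨t, t1, t2⟩ := frequently_atTop.1 hb (N + 1)
    have t3 : last b t = t := by
      obtain ⟨s, rfl⟩ : ∃ s, t = s + 1 := ⟨t - 1, by omega⟩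
      simp [last, t2]
    have e : A = {ξ | Tendsto (fun n => ∑ k ∈ range n, (vec (ξ (last b (t + k))) 0 : ℝ))
        atTop atTop} := by
      ext ξ
      simp only [hA, Set.mem_ofPred_eq]
      rw [← tendsto_add_atTop_iff_nat t]
      simp only [walk, step_eq, add_comm _ t, sum_range_add, Int.cast_add, Int.cast_sum]
      exact ⟨fun h => by simpa using (tendsto_atTop_add_const_left _
        (-∑ x ∈ range t, (vec (ξ (last b x)) 0 : ℝ)) h), tendsto_atTop_add_const_left _ _⟩
    rw [e]
    refine measurableSet_tendsto _ fun n => Finset.measurable_sum _ fun k _ =>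
      (measurable_of_countable fun e : Fin 1 × Bool => (vec e 0 : ℝ)).comp
        ((comap_measurable _).mono (le_iSup₂_of_le (last b (t + k)) ?_ le_rfl) le_rfl)
    have := last_mono b (Nat.le_add_right t k)
    omega
  have le : ∀ i, MeasurableSpace.comap (fun ξ : ℕ → Fin 1 × Bool => ξ i) inferInstance ≤
      MeasurableSpace.pi := fun i => (measurable_pi_apply i).comap_le
  have mA : MeasurableSet A := (limsup_le_iSup.trans (iSup_le le)) _ tail
  have ms : Measurable sw := measurable_pi_iff.2 fun i =>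
    (measurable_of_countable fun e : Fin 1 × Bool => (e.1, !e.2)).comp (measurable_pi_apply i)
  have e1 : nu 1 (sw ⁻¹' A) = nu 1 A := by rw [← Measure.map_apply ms mA, sw_map]
  have dj : Disjoint A (sw ⁻¹' A) := Set.disjoint_left.2 fun ξ h1 h2 => by
    simp only [hA, Set.mem_preimage, Set.mem_ofPred_eq, walk_sw, Int.cast_neg] at h1 h2
    exact h1.not_tendsto disjoint_atTop_atBot (tendsto_neg_atTop_iff.1 h2)
  have z : nu 1 A = 0 := (measure_zero_or_one_of_measurableSet_limsup_atTop le
    (iIndepFun_infinitePi (P := fun _ : ℕ => un 1) (X := fun _ e => e)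
      fun _ => measurable_id).iIndep tail).resolve_right fun h => by
      have := prob_le_one (μ := nu 1) (s := A ∪ sw ⁻¹' A)
      rw [measure_union dj (ms mA), e1, show nu 1 A = 1 from h] at this
      norm_num at this
  filter_upwards [measure_eq_zero_iff_ae_notMem.1 z,
    measure_eq_zero_iff_ae_notMem.1 (e1.trans z)] with ξ h1 h2 h
  simp only [Fin.sum_univ_one, sqrt_sq_eq_abs] at h
  obtain ⟨N, hN⟩ := eventually_atTop.1 (h.eventually_gt_atTop 0)
  have st : ∀ n, walk b ξ (n + 1) 0 = walk b ξ n 0 + 1 ∨ walk b ξ (n + 1) 0 = walk b ξ n 0 - 1 :=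
    fun n => by
      rw [walk, sum_range_succ, ← walk, vec, if_pos (Subsingleton.elim _ _)]
      split_ifs
      · exact Or.inl rfl
      · exact Or.inr rfl
  have nz : ∀ n, N ≤ n → walk b ξ n 0 ≠ 0 := fun n hn e => by simpa [e] using hN n hn
  rcases lt_or_gt_of_ne (nz N le_rfl) with s | s
  · refine h2 ?_
    simp only [hA, Set.mem_preimage, Set.mem_ofPred_eq, walk_sw, Int.cast_neg]
    refine h.congr' ((eventually_ge_atTop N).mono fun n hn => abs_of_neg ?_)
    have : walk b ξ n 0 < 0 := by
      induction n, hn using Nat.le_induction with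
      | base => exact s
      | succ n q ih => have := st n; have := nz (n + 1) (by omega); omega
    exact_mod_cast this
  · refine h1 (h.congr' ((eventually_ge_atTop N).mono fun n hn => abs_of_pos ?_))
    have : 0 < walk b ξ n 0 := by
      induction n, hn using Nat.le_induction with
      | base => exact s
      | succ n q ih => have := st n; have := nz (n + 1) (by omega); omega
    exact_mod_cast this

/-- Bernoulli law on Bool with success probability x -/
noncomputable def ber (x : ℝ) : Measure Bool :=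
  ENNReal.ofReal x • Measure.dirac true + ENNReal.ofReal (1 - x) • Measure.dirac false

theorem ber_prob {x : ℝ} (h : 0 ≤ x ∧ x ≤ 1) : IsProbabilityMeasure (ber x) := ⟨by
  simp only [ber, Measure.add_apply, Measure.smul_apply, measure_univ, smul_eq_mul, mul_one]
  rw [← ENNReal.ofReal_add h.1 (sub_nonneg.2 h.2)]
  simp⟩

theorem ber_true (p : ℕ → ℝ) [∀ n, IsProbabilityMeasure (ber (p n))] (n : ℕ) :
    Measure.infinitePi (fun n => ber (p n)) ((fun b => b n) ⁻¹' {true}) = ENNReal.ofReal (p n) := by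
  rw [← Measure.map_apply (measurable_pi_apply n) (measurableSet_singleton _),
    Measure.infinitePi_map_eval]
  simp [ber]

theorem one (p q : ℕ → ℝ) (hp : ∀ n, 0 ≤ p n ∧ p n ≤ 1) (hq : ∀ n, 0 ≤ q n ∧ q n ≤ 1)
    (h : ∀ n, q n ≤ p n)
    (H : ∀ᵐ ω ∂(Measure.infinitePi fun n => ber (p n)).prod (nu 1),
      Tendsto (fun n => √(∑ c, (walk ω.1 ω.2 n c : ℝ) ^ 2)) atTop atTop) :
    ∀ᵐ ω ∂(Measure.infinitePi fun n => ber (q n)).prod (nu 1),
      Tendsto (fun n => √(∑ c, (walk ω.1 ω.2 n c : ℝ) ^ 2)) atTop atTop := by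
  have := fun n => ber_prob (hp n)
  have := fun n => ber_prob (hq n)
  have s : ∑' n, ENNReal.ofReal (p n) ≠ ⊤ := fun e => by
    have m : ∀ n, MeasurableSet ((fun b : ℕ → Bool => b n) ⁻¹' {true}) := fun n =>
      measurable_pi_apply n (measurableSet_singleton _)
    have a := measure_limsup_eq_one (μ := Measure.infinitePi fun n => ber (p n)) m
      ((iIndepSet_iff_meas_biInter m).2 fun S => (iIndepFun_infinitePi (P := fun n => ber (p n))
        (X := fun _ e => e) fun _ => measurable_id).measure_inter_preimage_eq_mul S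
          fun _ _ => measurableSet_singleton _) (by simpa only [ber_true] using e)
    have a2 := (mem_ae_iff_prob_eq_one (MeasurableSet.measurableSet_limsup m)).2 a
    obtain ⟨b, b1, b2⟩ := ((Measure.ae_ae_of_ae_prod H).and a2).exists
    obtain ⟨ξ, c1, c2⟩ := (b1.and (rec1 b ((mem_limsup_iff_frequently_mem
      (s := fun n => (fun b : ℕ → Bool => b n) ⁻¹' {true})).1 b2))).exists
    exact c2 c1
  have a := ae_eventually_notMem (μ := Measure.infinitePi fun n => ber (q n))
    (s := fun n => (fun b : ℕ → Bool => b n) ⁻¹' {true}) (by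
      simp only [ber_true]
      exact ne_top_of_le_ne_top s (ENNReal.tsum_le_tsum fun n => ENNReal.ofReal_le_ofReal (h n)))
  filter_upwards [Measure.quasiMeasurePreserving_fst.ae a] with ω hω
  exact lin _ (hω.mono fun n hn => by simpa using hn) _

end Pool.Agent.H.MP_4881ff_pr
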