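import Pool.Agent.H.MP_4881ff_pr.G

namespace Pool.Agent.H.MP_4881ff_pr
open MeasureTheory ProbabilityTheory Finset Real Filter

abbrev E2 := Fin 2 × Bool

theorem itg {F : (ℕ → E2) → ℝ} (h : Continuous F) : Integrable F (nu 2) :=
  h.integrable_of_hasCompactSupport (HasCompactSupport.of_compactSpace _)

theorem ind_cont (i : ℕ) (e : E2) : Continuous fun ξ : ℕ → E2 => if ξ i = e then (1 : ℝ) else 0 :=
  (continuous_of_discreteTopology (f := fun x : E2 => if x = e then (1 : ℝ) else 0)).comp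
    (continuous_apply i)

theorem os1 (i : ℕ) {H : (ℕ → E2) → ℝ} (c : Continuous H)
    (h : ∀ ξ ξ', (∀ j, j ≠ i → ξ j = ξ' j) → H ξ = H ξ') (e : E2) :
    ∫ ξ, (if ξ i = e then 1 else 0) * H ξ ∂nu 2 = 1 / 4 * ∫ ξ, H ξ ∂nu 2 := by
  have key : ∀ e', ∫ ξ, (if ξ i = e' then 1 else 0) * H ξ ∂nu 2 =
      ∫ ξ, (if ξ i = e then 1 else 0) * H ξ ∂nu 2 := fun e' => by
    have m : (nu 2).map (fun ξ j => if j = i then Equiv.swap e e' (ξ j) else ξ j) = nu 2 := by
      refine (Measure.infinitePi_map_pi (fun _ : ℕ => un 2)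
        (f := fun j x => if j = i then Equiv.swap e e' x else x)
        (fun _ => measurable_of_countable _)).trans ?_
      unfold nu
      congr 1
      ext1 j
      by_cases q : j = i
      · refine Measure.ext_of_singleton fun x => ?_
        simp only [q, if_true]
        rw [Measure.map_apply (measurable_of_countable _) (measurableSet_singleton _),
          show (Equiv.swap e e') ⁻¹' {x} = {Equiv.swap e e' x} by
            ext y; simp [Equiv.swap_apply_eq_iff]]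
        simp [un, uniformOn_univ]
      · simp [q]
    have mm : Measurable fun (ξ : ℕ → E2) j => if j = i then Equiv.swap e e' (ξ j) else ξ j :=
      measurable_pi_iff.2 fun j => (measurable_of_countable
        fun x => if j = i then Equiv.swap e e' x else x).comp (measurable_pi_apply j)
    have := integral_map (μ := nu 2) mm.aemeasurable
      (f := fun ξ => (if ξ i = e' then 1 else 0) * H ξ) ((ind_cont i e').mul c).aestronglyMeasurable
    rw [m] at this
    rw [this]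
    congr 1
    ext ξ
    rw [h _ ξ fun j hj => if_neg hj]
    simp [Equiv.swap_apply_eq_iff]
  have := integral_finsetSum (μ := nu 2) univ
    (f := fun e' ξ => (if ξ i = e' then 1 else 0) * H ξ) fun e' _ => itg ((ind_cont i e').mul c)
  simp only [key, ← sum_mul, sum_ite_eq, mem_univ, if_true, one_mul] at this
  rw [this]
  simp

theorem os (i : ℕ) {G : (ℕ → E2) → E2 → ℝ} (c : ∀ e, Continuous fun ξ => G ξ e)
    (h : ∀ e ξ ξ', (∀ j, j ≠ i → ξ j = ξ' j) → G ξ e = G ξ' e) :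
    ∫ ξ, G ξ (ξ i) ∂nu 2 = 1 / 4 * ∫ ξ, ∑ e, G ξ e ∂nu 2 := by
  rw [integral_finsetSum _ fun e _ => itg (c e), mul_sum, ← sum_congr rfl fun e _ =>
    os1 i (c e) (h e) e, ← integral_finsetSum _ (f := fun e ξ => (if ξ i = e then 1 else 0) * G ξ e)
      fun e _ => itg ((ind_cont i e).mul (c e))]
  simp

def rr (x : Fin 2 → ℤ) : ℤ := x 0 ^ 2 + x 1 ^ 2

noncomputable def ff (x : Fin 2 → ℤ) : ℝ := log (2 * rr x - 1)

theorem ff_nn (x : Fin 2 → ℤ) : 0 ≤ ff x := by
  have := log_intCast_nonneg (2 * rr x - 1)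
  push_cast at this
  exact this

theorem ff_sup (x : Fin 2 → ℤ) (h : 1 < rr x) : ∑ e : E2, ff (x + vec e) ≤ 4 * ff x := by
  have p : ∀ a b : ℤ, 1 < a ^ 2 + b ^ 2 → (0 : ℝ) < 2 * (((a : ℝ) + 1) ^ 2 + b ^ 2) - 1 :=
    fun a b h => by
      have : 0 < (a + 1) ^ 2 + b ^ 2 := by
        by_contra c
        have e1 : a = -1 := by nlinarith [sq_nonneg (a + 1), sq_nonneg b]
        have e2 : b = 0 := by nlinarith [sq_nonneg (a + 1), sq_nonneg b]
        simp [e1, e2] at h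
      have : (1 : ℝ) ≤ ((a : ℝ) + 1) ^ 2 + b ^ 2 := by exact_mod_cast this
      linarith
  unfold rr at h
  have p1 := p (x 0) (x 1) h
  have p2 := p (-x 0) (x 1) (by simpa using h)
  have p3 := p (x 1) (x 0) (by linarith)
  have p4 := p (-x 1) (x 0) (by rw [neg_sq]; linarith)
  simp only [Fintype.sum_prod_type, Fin.sum_univ_two, Fintype.sum_bool, ff, rr, vec, Pi.add_apply]
  norm_num
  push_cast at p1 p2 p3 p4
  generalize (x 0 : ℝ) = a at *
  generalize (x 1 : ℝ) = b at *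
  have q2 : 0 < 2 * ((a + -1) ^ 2 + b ^ 2) - 1 := by linarith
  have q3 : 0 < 2 * (a ^ 2 + (b + 1) ^ 2) - 1 := by linarith
  have q4 : 0 < 2 * (a ^ 2 + (b + -1) ^ 2) - 1 := by linarith
  rw [← log_mul p1.ne' q2.ne', ← log_mul q3.ne' q4.ne', ← log_mul (mul_pos p1 q2).ne'
    (mul_pos q3 q4).ne', show (4 : ℝ) = (4 : ℕ) by norm_num, ← log_pow]
  refine log_le_log (mul_pos (mul_pos p1 q2) (mul_pos q3 q4)) ?_
  nlinarith [sq_nonneg (a ^ 2 - b ^ 2)]

def ZZ (z : (ℕ → E2) → Fin 2 → ℤ) (t : ℕ) (ξ : ℕ → E2) : ℕ → Fin 2 → ℤ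
  | 0 => z ξ
  | n + 1 => if rr (ZZ z t ξ n) ≤ 1 then ZZ z t ξ n else ZZ z t ξ n + vec (ξ (t + n))

theorem ZZ_cont {z : (ℕ → E2) → Fin 2 → ℤ} (c : Continuous z) (t n : ℕ) :
    Continuous fun ξ => ZZ z t ξ n := by
  induction n with
  | zero => exact c
  | succ n ih =>
    exact (continuous_of_discreteTopology (f := fun p : (Fin 2 → ℤ) × E2 =>
      if rr p.1 ≤ 1 then p.1 else p.1 + vec p.2)).comp (ih.prodMk (continuous_apply (t + n)))

theorem ZZ_dep {z : (ℕ → E2) → Fin 2 → ℤ} {t : ℕ} {ξ ξ' : ℕ → E2} (h0 : z ξ = z ξ') (n : ℕ)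
    (h : ∀ j < n, ξ (t + j) = ξ' (t + j)) : ZZ z t ξ n = ZZ z t ξ' n := by
  induction n with
  | zero => exact h0
  | succ n ih => simp only [ZZ, ih fun j hj => h j (by omega), h n (by omega)]

theorem ZZ_hit (z : (ℕ → E2) → Fin 2 → ℤ) (t : ℕ) (ξ : ℕ → E2) (n : ℕ) :
    ∃ j ≤ n, ZZ z t ξ n = z ξ + ∑ i ∈ range j, vec (ξ (t + i)) ∧ (j = n ∨ rr (ZZ z t ξ n) ≤ 1) := by
  induction n with
  | zero => exact ⟨0, le_rfl, by simp [ZZ], Or.inl rfl⟩
  | succ n ih =>
    obtain ⟨j, j1, j2, j3⟩ := ih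
    by_cases h : rr (ZZ z t ξ n) ≤ 1
    · exact ⟨j, by omega, by rw [ZZ, if_pos h, j2], Or.inr (by rw [ZZ, if_pos h]; exact h)⟩
    · obtain rfl := j3.resolve_right h
      exact ⟨j + 1, le_rfl, by rw [ZZ, if_neg h, j2, sum_range_succ, add_assoc], Or.inl rfl⟩

theorem ZZ_sup {z : (ℕ → E2) → Fin 2 → ℤ} (c : Continuous z) {t : ℕ}
    (h : ∀ ξ ξ', (∀ j < t, ξ j = ξ' j) → z ξ = z ξ') (n : ℕ) :
    ∫ ξ, ff (ZZ z t ξ n) ∂nu 2 ≤ ∫ ξ, ff (z ξ) ∂nu 2 := by
  induction n with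
  | zero => exact le_rfl
  | succ n ih =>
    have cc : ∀ F : (Fin 2 → ℤ) → ℝ, Continuous fun ξ => F (ZZ z t ξ n) := fun F =>
      (continuous_of_discreteTopology (f := F)).comp (ZZ_cont c t n)
    have := os (t + n) (G := fun ξ e => ff (if rr (ZZ z t ξ n) ≤ 1 then ZZ z t ξ n else
      ZZ z t ξ n + vec e)) (fun e => cc fun x => ff (if rr x ≤ 1 then x else x + vec e))
      fun e ξ ξ' q => by
        simp only [ZZ_dep (t := t) (h ξ ξ' fun j hj => q j (by omega)) n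
          fun j hj => q (t + j) (by omega)]
    refine this.le.trans (le_trans ?_ ih)
    rw [← integral_const_mul]
    refine integral_mono (itg (cc fun x => 1 / 4 * ∑ e : E2, ff (if rr x ≤ 1 then x else x + vec e)))
      (itg (cc ff)) fun ξ => ?_
    by_cases q : rr (ZZ z t ξ n) ≤ 1
    · simp [q]
    · simp only [q, if_false]
      linarith [ff_sup _ (not_le.1 q)]

theorem rec2 (M : ℕ) : ∃ T : ℕ, (M + 2) ^ 4 ≤ T ∧ ∀ (I : Finset ℕ) (L : ℕ → ℕ) (t : ℕ),
    (∀ i ∈ I, i < t ∧ 0 < L i) → (∀ ξ : ℕ → E2, rr (fun c => ∑ i ∈ I, (L i : ℤ) * vec (ξ i) c) ≤ 2 * M ^ 2) →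
    (nu 2).real {ξ | 1 < rr (ZZ (fun ξ c => ∑ i ∈ I, (L i : ℤ) * vec (ξ i) c) t ξ T)} ≤ 1 / 2 := by
  obtain ⟨K, hK⟩ : ∃ K : ℕ, K = (4 * M ^ 2 + 2) ^ 4 := ⟨_, rfl⟩
  refine ⟨(M + 2) ^ 4 + 32 * (2 * K + 1) ^ 2, by omega, fun I L t hI hM => ?_⟩
  set T := (M + 2) ^ 4 + 32 * (2 * K + 1) ^ 2 with hT
  set z : (ℕ → E2) → Fin 2 → ℤ := fun ξ c => ∑ i ∈ I, (L i : ℤ) * vec (ξ i) c with hz
  have cz : Continuous z := continuous_pi fun c => by
    have := fun i => vec_cont (d := 2) i c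
    fun_prop
  have l0 : 0 < log (4 * (M : ℝ) ^ 2 + 2) := log_pos (by nlinarith)
  have a1 := (mul_meas_ge_le_integral_of_nonneg (μ := nu 2) (ae_of_all _ fun ξ => ff_nn (ZZ z t ξ T))
    (itg ((continuous_of_discreteTopology (f := ff)).comp (ZZ_cont cz t T)))
    (4 * log (4 * M ^ 2 + 2))).trans ((ZZ_sup cz (fun ξ ξ' q => funext fun c =>
      sum_congr rfl fun i hi => by rw [q i (hI i hi).1]) T).trans (integral_mono
      (itg ((continuous_of_discreteTopology (f := ff)).comp cz))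
      (integrable_const (log (4 * M ^ 2 + 2))) fun ξ => by
        have h1 : (rr (z ξ) : ℝ) ≤ 2 * M ^ 2 := by exact_mod_cast hM ξ
        have h2 : (0 : ℝ) ≤ rr (z ξ) := by unfold rr; positivity
        have h3 : (2 * rr (z ξ) - 1 : ℤ) ≠ 0 := by omega
        simp only [ff]
        rw [← log_abs]
        exact log_le_log (abs_pos.2 (by exact_mod_cast h3)) (abs_le.2 ⟨by nlinarith, by linarith⟩)))
  simp only [integral_const, probReal_univ, smul_eq_mul, one_mul] at a1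
  have dj : Disjoint I (Ico t (t + T)) := disjoint_left.2 fun i h1 h2 => by
    have := (hI i h1).1; have := (mem_Ico.1 h2).1; omega
  have T0 : 0 < T := by positivity
  have a2 : ∀ a : ℤ, (nu 2).real {ξ | z ξ 0 + ∑ i ∈ range T, vec (ξ (t + i)) 0 = a} ≤
      1 / (4 * (2 * K + 1)) := fun a => by
    refine (measureReal_mono fun ξ hξ c hc => ?_).trans ((AC (I ∪ Ico t (t + T))
      ⟨t, mem_union_right _ (mem_Ico.2 ⟨le_rfl, by omega⟩)⟩ (fun i => if i < t then L i else 1)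
      (fun i hi => ?_) 1 fun _ => a).trans ?_)
    · obtain rfl : c = 0 := by omega
      rw [sum_union dj, sum_Ico_eq_sum_range, Nat.add_sub_cancel_left, ← hξ.out]
      congr 1
      · exact sum_congr rfl fun i hi => by rw [if_pos (hI i hi).1]
      · exact sum_congr rfl fun i hi => by simp
    · split_ifs with q
      · exact (hI i ((mem_union.1 hi).resolve_right fun e => by
          have := (mem_Ico.1 e).1; omega)).2
      · exact one_pos
    · have c1 : T ≤ #(I ∪ Ico t (t + T)) := by simpa using card_le_card (subset_union_right (s₁ := I) (s₂ := Ico t (t + T)))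
      have c2 : (32 * (2 * K + 1) ^ 2 : ℝ) ≤ #(I ∪ Ico t (t + T)) := by
        exact_mod_cast le_trans (by omega) c1
      rw [show 2 - 1 = 1 from rfl, pow_one, sqrt_le_left (by positivity), div_pow,
        div_le_div_iff₀ (by push_cast; nlinarith [sq_nonneg (K : ℝ), K.cast_nonneg (α := ℝ)])
        (by positivity)]
      push_cast
      nlinarith [pi_le_four, sq_nonneg (2 * (K : ℝ) + 1)]
  have a3 := (measureReal_biUnion_finset_le (μ := nu 2) (Icc (-(K : ℤ)) K) _).trans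
    (sum_le_card_nsmul _ _ _ fun a _ => a2 a)
  rw [Int.card_Icc, show (K : ℤ) + 1 - -K = ((2 * K + 1 : ℕ) : ℤ) by push_cast; ring,
    Int.toNat_natCast, nsmul_eq_mul, show ((2 * K + 1 : ℕ) : ℝ) * (1 / (4 * (2 * K + 1))) = 1 / 4 by
      push_cast; field_simp] at a3
  have a4 : (nu 2).real {x | 4 * log (4 * (M : ℝ) ^ 2 + 2) ≤ ff (ZZ z t x T)} ≤ 1 / 4 := by
    nlinarith
  refine (measureReal_mono fun ξ hξ => ?_).trans ((measureReal_union_le _ _).trans
    ((add_le_add a4 a3).trans (by norm_num)))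
  obtain ⟨j, -, j2, j3⟩ := ZZ_hit z t ξ T
  obtain rfl := j3.resolve_right (not_le.2 hξ)
  refine or_iff_not_imp_right.2 fun q => ?_
  simp only [Set.mem_iUnion, Set.mem_ofPred_eq, exists_prop, exists_eq_right', mem_Icc,
    ← abs_le, not_le] at q
  have e : ZZ z t ξ T 0 = z ξ 0 + ∑ i ∈ range T, vec (ξ (t + i)) 0 := by rw [j2]; simp
  rw [← e] at q
  have k1 : (K : ℤ) ≤ 2 * rr (ZZ z t ξ T) - 1 := by
    unfold rr
    generalize ZZ z t ξ T = y at q ⊢
    have k0 : (0 : ℤ) ≤ K := Int.natCast_nonneg K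
    clear_value T z
    clear * - q k0
    nlinarith [sq_abs (y 0), sq_nonneg (y 1)]
  have k2 : (4 * (M : ℝ) ^ 2 + 2) ^ 4 ≤ 2 * rr (ZZ z t ξ T) - 1 := by
    rw [hK] at k1; exact_mod_cast k1
  have := log_le_log (by positivity) k2
  rw [log_pow, Nat.cast_ofNat] at this
  exact this

end Pool.Agent.H.MP_4881ff_pr
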