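import Pool.Agent.H.MP_4881ff_pr.H

namespace Pool.Agent.H.MP_4881ff_pr
open MeasureTheory ProbabilityTheory Finset Real Filter

noncomputable def TT (M : ℕ) : ℕ := (rec2 M).choose

noncomputable def ss : ℕ → ℕ
  | 0 => 0
  | k + 1 => ss k + 2 * ((k + 1) * (2 * ss k + TT (ss k) + k + 1)) + TT (ss k)

noncomputable def UU (k : ℕ) : ℕ := 2 * ss k + TT (ss k) + k + 1

theorem ss_succ (k : ℕ) : ss (k + 1) = ss k + 2 * ((k + 1) * UU k) + TT (ss k) := rfl

theorem UU_pos (k : ℕ) : 0 < UU k := Nat.succ_pos _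

theorem ss_mono : StrictMono ss := strictMono_nat_of_lt_succ fun k => by
  have := Nat.mul_pos k.succ_pos (UU_pos k)
  rw [ss_succ]; simp only [Nat.succ_eq_add_one] at this; omega

def cd (f : ℕ → ℕ) (k n : ℕ) : Prop := n = ss k ∨
  (∃ i ≤ f k, n = ss k + (k + 1) * UU k + i * UU k) ∨ (ss k + 2 * ((k + 1) * UU k) ≤ n ∧ n < ss (k + 1))

open Classical in
noncomputable def bb (f : ℕ → ℕ) (n : ℕ) : Bool := decide (∃ k, cd f k n)

theorem bb_iff {f : ℕ → ℕ} (hf : ∀ k, f k ≤ k) {k n : ℕ} (h1 : ss k ≤ n) (h2 : n < ss (k + 1)) :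
    bb f n = true ↔ cd f k n := by
  simp only [bb, decide_eq_true_eq]
  refine ⟨fun ⟨j, hj⟩ => ?_, fun h => ⟨k, h⟩⟩
  have : ss j ≤ n ∧ n < ss (j + 1) := by
    have := ss_mono j.lt_succ_self
    have e := ss_succ j
    rcases hj with h | ⟨i, i1, h⟩ | h
    · exact ⟨h.ge, h ▸ this⟩
    · have := Nat.mul_lt_mul_of_pos_right (Nat.lt_succ_of_le (i1.trans (hf j))) (UU_pos j)
      simp only [Nat.succ_eq_add_one] at this
      omega
    · omega
  have a := ss_mono.lt_iff_lt.1 (h1.trans_lt this.2)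
  have b := ss_mono.lt_iff_lt.1 (this.1.trans_lt h2)
  obtain rfl : j = k := by omega
  exact hj

theorem lastT {b : ℕ → Bool} {t : ℕ} (h : b t = true) : last b t = t := by
  cases t with
  | zero => rfl
  | succ t => simp [last, h]

theorem lastC {f : ℕ → ℕ} {k n : ℕ} (h : cd f k n) : last (bb f) n = n :=
  lastT (by simp only [bb, decide_eq_true_eq]; exact ⟨k, h⟩)

theorem lastR {b : ℕ → Bool} {t n : ℕ} (h : last b t = t) (hn : t ≤ n)
    (q : ∀ j, t < j → j ≤ n → b j ≠ true) : last b n = t := by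
  induction n, hn using Nat.le_induction with
  | base => exact h
  | succ n e ih => rw [last, if_neg (q _ (by omega) le_rfl), ih fun j a c => q j a (by omega)]

theorem walk_succ {d : ℕ} (b : ℕ → Bool) (ξ : ℕ → Fin d × Bool) (n : ℕ) (c : Fin d) :
    walk b ξ (n + 1) c = walk b ξ n c + vec (ξ (last b n)) c := by
  rw [walk, sum_range_succ, ← walk, step_eq]

theorem run {b : ℕ → Bool} (ξ : ℕ → E2) {t : ℕ} (h : last b t = t) (L : ℕ)
    (q : ∀ j, t < j → j < t + L → b j ≠ true) (c : Fin 2) :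
    walk b ξ (t + L) c = walk b ξ t c + L * vec (ξ t) c := by
  induction L with
  | zero => simp
  | succ L ih =>
    rw [← add_assoc, walk_succ, ih fun j a e => q j a (by omega),
      lastR h (by omega) fun j a e => q j a (by omega)]
    push_cast
    ring

theorem walk_abs (b : ℕ → Bool) (ξ : ℕ → E2) (n : ℕ) (c : Fin 2) : |walk b ξ n c| ≤ n := by
  induction n with
  | zero => simp [walk]
  | succ n ih =>
    rw [walk_succ, vec, abs_le] at *
    split_ifs <;> omega

theorem seg1 {f : ℕ → ℕ} (hf : ∀ k, f k ≤ k) (ξ : ℕ → E2) (k L : ℕ) (hL : L ≤ (k + 1) * UU k)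
    (c : Fin 2) : walk (bb f) ξ (ss k + L) c = walk (bb f) ξ (ss k) c + L * vec (ξ (ss k)) c := by
  refine run ξ (lastC (Or.inl rfl)) L (fun j a e q => ?_) c
  have := ss_succ k
  rcases (bb_iff hf a.le (by omega)).1 q with h | ⟨i, -, h⟩ | h <;> omega

def opp (e : E2) : E2 := (e.1, !e.2)

theorem vec_opp (e : E2) (c : Fin 2) : vec (opp e) c = -vec e c := by
  simp only [vec, opp]
  by_cases h : e.2 = true <;> split_ifs <;> simp_all

theorem nonB : ¬ ∀ᵐ ξ ∂nu 2,
    Tendsto (fun n => √(∑ c, (walk (bb fun _ => 0) ξ n c : ℝ) ^ 2)) atTop atTop := fun H => by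
  set b := bb fun _ => 0
  have hf : ∀ k : ℕ, (fun _ => 0) k ≤ k := fun k => k.zero_le
  have cw : ∀ n, Continuous fun ξ : ℕ → E2 => walk b ξ n := fun n => continuous_pi fun c => by
    have := fun i => vec_cont (d := 2) i c
    simp only [walk, step_eq]
    fun_prop
  set W : ℕ → Set (ℕ → E2) := fun N => ⋃ n, ⋃ _ : N ≤ n, (fun ξ => rr (walk b ξ n)) ⁻¹' Set.Iic 1
  have mW : ∀ N, MeasurableSet (W N) := fun N => .iUnion fun n => .iUnion fun _ =>
    ((continuous_of_discreteTopology (f := rr)).comp (cw n)).measurable measurableSet_Iic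
  have t := tendsto_measure_iInter_atTop (μ := nu 2) (fun N => (mW N).nullMeasurableSet)
    (fun M N h => Set.iUnion_mono fun n => Set.iUnion_subset fun e => Set.subset_iUnion
      (fun _ : M ≤ n => _) (h.trans e)) ⟨0, measure_ne_top _ _⟩
  rw [measure_eq_zero_iff_ae_notMem.2 (H.mono fun ξ h q => by
    obtain ⟨N, hN⟩ := eventually_atTop.1 (h.eventually_gt_atTop 1)
    obtain ⟨n, n1, n2⟩ := Set.mem_iUnion₂.1 (Set.mem_iInter.1 q N)
    have a := hN n n1
    rw [lt_sqrt zero_le_one, Fin.sum_univ_two] at a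
    have : ((walk b ξ n 0 : ℝ)) ^ 2 + (walk b ξ n 1 : ℝ) ^ 2 ≤ 1 := by
      exact_mod_cast (show walk b ξ n 0 ^ 2 + walk b ξ n 1 ^ 2 ≤ 1 from n2)
    linarith)] at t
  obtain ⟨k, hk⟩ := (((ENNReal.tendsto_toReal ENNReal.zero_ne_top).comp t).eventually
    (gt_mem_nhds (show (0 : ENNReal).toReal < 1 / 8 by norm_num))).exists
  refine absurd hk (not_lt.2 ?_)
  have V0 := Nat.mul_pos k.succ_pos (UU_pos k)
  simp only [Nat.succ_eq_add_one] at V0
  have es := ss_succ k
  have ls : last b (ss k) = ss k := lastC (Or.inl rfl)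
  set V := (k + 1) * UU k
  have ez : (fun (ξ : ℕ → E2) c => ∑ i ∈ II b (ss k), (len b i : ℤ) * vec (ξ i) c) =
      fun ξ => walk b ξ (ss k) := funext fun ξ => funext fun c => (walk_sum ls ξ c).symm
  have r := (rec2 (ss k)).choose_spec.2 (II b (ss k)) (len b) (ss k + 2 * V)
    (fun i hi => ⟨by have := mem_range.1 (mem_filter.1 hi).1; omega, len_pos hi ls⟩) fun ξ => by
      simp only [rr, ← walk_sum ls]
      nlinarith [sq_le_sq' (abs_le.1 (walk_abs b ξ (ss k) 0)).1 (abs_le.1 (walk_abs b ξ (ss k) 0)).2,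
        sq_le_sq' (abs_le.1 (walk_abs b ξ (ss k) 1)).1 (abs_le.1 (walk_abs b ξ (ss k) 1)).2]
  rw [ez] at r
  set Z := fun ξ => ZZ (fun ξ => walk b ξ (ss k)) (ss k + 2 * V) ξ (TT (ss k)) with hZ
  have cZ : Continuous Z := ZZ_cont (cw _) _ _
  have o := os (ss k + V) (G := fun ξ e => if e = opp (ξ (ss k)) ∧ rr (Z ξ) ≤ 1 then 1 else 0)
    (fun e => (continuous_of_discreteTopology (f := fun p : E2 × (Fin 2 → ℤ) =>
      if e = opp p.1 ∧ rr p.2 ≤ 1 then (1 : ℝ) else 0)).comp ((continuous_apply _).prodMk cZ))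
    fun e ξ ξ' q => by
      have : Z ξ = Z ξ' := ZZ_dep (funext fun c => by
        simp only [walk_sum ls]
        exact sum_congr rfl fun i hi => by
          rw [q i (by have := mem_range.1 (mem_filter.1 hi).1; omega)]) _ fun j _ => q _ (by omega)
      simp only [this, q (ss k) (by omega)]
  have mZ : MeasurableSet {ξ | 1 < rr (Z ξ)} :=
    ((continuous_of_discreteTopology (f := rr)).comp cZ).measurable measurableSet_Ioi
  have o2 : ∫ ξ, ∑ e : E2, (if e = opp (ξ (ss k)) ∧ rr (Z ξ) ≤ 1 then (1 : ℝ) else 0) ∂nu 2 =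
      (nu 2).real {ξ | 1 < rr (Z ξ)}ᶜ := by
    rw [← integral_indicator_one mZ.compl]
    congr 1
    ext ξ
    by_cases q : rr (Z ξ) ≤ 1 <;> simp [q, Set.indicator]
  rw [o2, measureReal_compl mZ, probReal_univ] at o
  refine le_trans (by linarith [show (nu 2).real {ξ | 1 < rr (Z ξ)} ≤ 1 / 2 from r]) (o.ge.trans ?_)
  refine le_trans (integral_mono_of_nonneg (ae_of_all _ fun ξ => by positivity)
    ((integrable_const (1 : ℝ)).indicator (mW k)) (ae_of_all _ fun ξ => ?_))
    (integral_indicator_one (mW k)).le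
  simp only
  split_ifs with q
  · obtain ⟨j, j1, j2, -⟩ := ZZ_hit (fun ξ => walk b ξ (ss k)) (ss k + 2 * V) ξ (TT (ss k))
    have w : ∀ j ≤ TT (ss k), walk b ξ (ss k + 2 * V + j) =
        walk b ξ (ss k) + ∑ i ∈ range j, vec (ξ (ss k + 2 * V + i)) := fun j hj => by
      induction j with
      | zero =>
        ext c
        have := run ξ (lastC (f := fun _ => 0) (k := k) (Or.inr (Or.inl ⟨0, le_rfl, rfl⟩))) V
          (fun j a e q => by
            rcases (bb_iff hf (k := k) (by omega) (by omega)).1 q with h | ⟨i, i1, h⟩ | h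
            · omega
            · obtain rfl : i = 0 := Nat.le_zero.1 i1
              omega
            · omega) c
        simp only [zero_mul, add_zero] at this
        rw [seg1 hf ξ k _ le_rfl, q.1] at this
        rw [add_zero, two_mul, ← add_assoc, this, vec_opp, sum_range_zero, add_zero, mul_neg]
        exact add_neg_cancel_right _ _
      | succ j ih =>
        ext c
        rw [← add_assoc, walk_succ, ih (by omega), sum_range_succ,
          lastC (k := k) (Or.inr (Or.inr ⟨by omega, by omega⟩))]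
        simp [add_assoc]
    rw [Set.indicator_of_mem (Set.mem_iUnion₂.2 ⟨ss k + 2 * V + j,
      by have := ss_mono.le_apply (x := k); omega, by
        rw [Set.mem_preimage, w j j1, ← j2]; exact q.2⟩)]
  · exact Set.indicator_nonneg (fun _ _ => zero_le_one) _

end Pool.Agent.H.MP_4881ff_pr
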