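import Pool.Agent.H.MP_4881ff_pr.I

namespace Pool.Agent.H.MP_4881ff_pr
open MeasureTheory ProbabilityTheory Finset Real Filter

theorem fin_tend {d : ℕ} (b : ℕ → Bool) (ξ : ℕ → Fin d × Bool)
    (f : ∀ a, {n | walk b ξ n = a}.Finite) :
    Tendsto (fun n => √(∑ c, (walk b ξ n c : ℝ) ^ 2)) atTop atTop := by
  refine tendsto_sqrt_atTop.comp (tendsto_atTop.2 fun M => ?_)
  obtain ⟨N, hN⟩ := exists_nat_gt M
  rw [← Nat.cofinite_eq_atTop, eventually_cofinite]
  refine ((Fintype.piFinset fun _ => Icc (-(N : ℤ)) N).finite_toSet.biUnion fun a _ => f a).subset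
    fun n hn => Set.mem_biUnion (x := walk b ξ n) (Fintype.mem_piFinset.2 fun c => ?_) rfl
  have := single_le_sum (f := fun c => (walk b ξ n c : ℝ) ^ 2) (fun _ _ => sq_nonneg _) (mem_univ c)
  have h2 : (walk b ξ n c) ^ 2 < N := by
    exact_mod_cast (this.trans (not_le.1 hn).le).trans_lt hN
  rw [mem_Icc]
  constructor <;> nlinarith

theorem window (n : ℕ) : ∃ k, ss k ≤ n ∧ n < ss (k + 1) := by
  induction n with
  | zero => exact ⟨0, le_rfl, ss_mono Nat.zero_lt_one⟩
  | succ n ih =>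
    obtain ⟨k, k1, k2⟩ := ih
    by_cases h : n + 1 < ss (k + 1)
    · exact ⟨k, by omega, h⟩
    · exact ⟨k + 1, by omega, by have := ss_mono (k + 1).lt_succ_self; simp only [Nat.succ_eq_add_one] at this; omega⟩

theorem XX (e : E2) : ∀ᵐ ξ ∂nu 2,
    {k | True ∧ ξ ∈ {ξ : ℕ → E2 | ∀ i ≤ k, ξ (ss k + (k + 1) * UU k + i * UU k) = e}}.Finite := by
  refine BC (fun _ => True) (fun k => k + 1) (fun s t _ _ h => by omega) _ 1 one_pos 1 fun k _ => ?_
  have e1 : {ξ : ℕ → E2 | ∀ i ≤ k, ξ (ss k + (k + 1) * UU k + i * UU k) = e} =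
      Set.pi ↑((range (k + 1)).image fun i => ss k + (k + 1) * UU k + i * UU k) fun _ => {e} := by
    ext ξ
    simp
  rw [e1, measureReal_def, nu, Measure.infinitePi_pi _ fun _ _ => measurableSet_singleton _,
    prod_const, card_image_of_injective _ fun i j h => Nat.eq_of_mul_eq_mul_right (UU_pos k)
      (by simpa using h), card_range]
  have : ((k + 1 : ℕ) : ℝ) ≤ 2 ^ (k + 1) := by exact_mod_cast (Nat.lt_two_pow_self).le
  simp only [un, uniformOn_univ, Measure.count_singleton, ENNReal.toReal_pow, pow_one]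
  norm_num
  rw [← inv_pow, ← one_div, show (1 / 4 : ℝ) = (1 / 2) ^ 2 by norm_num, ← pow_mul, mul_comm, pow_mul]
  refine pow_le_pow_left₀ (by positivity) ?_ 2
  rw [one_div_pow]
  exact one_div_le_one_div_of_le (by positivity) (by exact_mod_cast this)

theorem YY (c : Fin 2) (a : Fin 2 → ℤ) : ∀ᵐ ξ ∂nu 2,
    {k | True ∧ ξ ∈ {ξ : ℕ → E2 | ∀ c', c' ≠ c → walk (bb id) ξ (ss (k + 1)) c' = a c'}}.Finite := by
  refine BC (fun _ => True) (fun k => k + 1) (fun s t _ _ h => by omega) _ 1 one_pos 2 fun k _ => ?_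
  have ls : last (bb id) (ss (k + 1)) = ss (k + 1) := lastC (Or.inl rfl)
  have c1 : Ico (ss k + 2 * ((k + 1) * UU k)) (ss (k + 1)) ⊆ II (bb id) (ss (k + 1)) := fun j hj =>
    mem_filter.2 ⟨mem_range.2 (mem_Ico.1 hj).2, lastC (k := k) (Or.inr (Or.inr (mem_Ico.1 hj)))⟩
  have c2 := card_le_card c1
  have c3 : (ss k + 2) ^ 4 ≤ TT (ss k) := (rec2 (ss k)).choose_spec.1
  have c4 := Nat.pow_le_pow_left (show k + 1 ≤ ss k + 2 by
    have := ss_mono.le_apply (x := k); omega) 4
  rw [Nat.card_Ico, ss_succ, Nat.add_sub_cancel_left, ← ss_succ] at c2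
  have c5 : ((k + 1 : ℕ) : ℝ) ^ 4 ≤ #(II (bb id) (ss (k + 1))) := by
    exact_mod_cast c4.trans (c3.trans c2)
  have c6 : (0 : ℝ) < ((k + 1 : ℕ) : ℝ) ^ 4 := by positivity
  simp only [walk_sum ls, pow_one]
  refine (AC _ (card_pos.1 (by exact_mod_cast c6.trans_le c5)) _ (fun i hi => len_pos hi ls)
    c a).trans ?_
  rw [show 2 - 1 = 1 from rfl, pow_one, sqrt_le_left (by positivity), div_pow,
    div_le_div_iff₀ (by push_cast at *; linarith) (by positivity), ← pow_mul]
  push_cast at *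
  nlinarith [pi_le_four]

theorem trA : ∀ᵐ ξ ∂nu 2,
    Tendsto (fun n => √(∑ c, (walk (bb id) ξ n c : ℝ) ^ 2)) atTop atTop := by
  filter_upwards [ae_all_iff.2 XX, ae_all_iff.2 fun c => ae_all_iff.2 (YY c)] with ξ hX hY
  refine fin_tend _ _ fun a => ?_
  have hf : ∀ k : ℕ, id k ≤ k := fun k => le_rfl
  obtain ⟨K1, h1⟩ := (Set.finite_iUnion hX).bddAbove
  obtain ⟨K2, h2⟩ := (Set.finite_iUnion fun c => hY c a).bddAbove
  refine (Set.finite_lt_nat (ss (K1 + K2 + (a 0).natAbs + (a 1).natAbs + 2))).subset fun n hn => ?_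
  by_contra q
  obtain ⟨k, k1, k2⟩ := window n
  have k3 := ss_mono.lt_iff_lt.1 ((not_lt.1 q).trans_lt k2)
  have hn : walk (bb id) ξ n = a := hn
  have es := ss_succ k
  by_cases s1 : n ≤ ss k + (k + 1) * UU k
  · obtain ⟨j, rfl⟩ : ∃ j, k = j + 1 := ⟨k - 1, by omega⟩
    have := h2 (Set.mem_iUnion.2 ⟨(ξ (ss (j + 1))).1, show j ∈ _ from ⟨trivial, fun c' hc => by
      have := seg1 hf ξ (j + 1) (n - ss (j + 1)) (by omega) c'
      rw [vec, if_neg hc, mul_zero, add_zero, Nat.add_sub_cancel' k1, hn] at this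
      exact this.symm⟩⟩)
    omega
  obtain ⟨i, i1, i2⟩ : ∃ i ≤ k, ξ (ss k + (k + 1) * UU k + i * UU k) ≠ opp (ξ (ss k)) := by
    by_contra c
    push Not at c
    have := h1 (Set.mem_iUnion.2 ⟨opp (ξ (ss k)), show k ∈ _ from ⟨trivial, c⟩⟩)
    omega
  set e := ξ (ss k)
  set φ : ℕ → ℤ := fun n => vec e e.1 * walk (bb id) ξ n e.1 with hφ
  have v1 : ∀ e' : E2, -1 ≤ vec e e.1 * vec e' e.1 := fun e' => by
    simp only [vec]; split_ifs <;> omega
  have v2 : ∀ e' : E2, e' ≠ opp e → 0 ≤ vec e e.1 * vec e' e.1 := fun e' h => by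
    simp only [vec]
    split_ifs with a1 a2 a3 a4 a3 <;> try omega
    all_goals exact absurd (Prod.ext (by simp_all [opp]) (by simp_all [opp])) h
  have dn : ∀ t L, φ t - L ≤ φ (t + L) := fun t L => by
    induction L with
    | zero => simp
    | succ L ih =>
      have := v1 (ξ (last (bb id) (t + L)))
      simp only [hφ, ← add_assoc, walk_succ, mul_add] at ih ⊢
      push_cast
      linarith
  have up : ∀ L ≤ UU k, φ (ss k + (k + 1) * UU k + i * UU k) ≤
      φ (ss k + (k + 1) * UU k + i * UU k + L) := fun L hL => by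
    have m := Nat.mul_le_mul_right (UU k) (Nat.succ_le_succ i1)
    simp only [Nat.succ_eq_add_one, add_mul, one_mul] at m es
    have := run ξ (lastC (f := id) (k := k) (Or.inr (Or.inl ⟨i, i1, rfl⟩))) L (fun j a e q => by
      simp only [add_mul, one_mul] at a e
      rcases (bb_iff hf (k := k) (by omega) (by omega)).1 q with h | ⟨i', -, h⟩ | h
      · omega
      · simp only [add_mul, one_mul] at h
        have b1 : i < i' := Nat.lt_of_mul_lt_mul_right (a := UU k) (by omega)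
        have := Nat.mul_le_mul_right (UU k) (Nat.succ_le_of_lt b1)
        simp only [Nat.succ_eq_add_one, add_mul, one_mul] at this
        omega
      · simp only [add_mul, one_mul] at h
        omega) e.1
    simp only [hφ, this, mul_add]
    nlinarith [v2 _ i2]
  have p0 : ((k + 1) * UU k : ℕ) - (ss k : ℤ) ≤ φ (ss k + (k + 1) * UU k) := by
    have := abs_le.1 (walk_abs (bb id) ξ (ss k) e.1)
    simp only [hφ, seg1 hf ξ k _ le_rfl, vec, if_true, e] at this ⊢
    split_ifs <;> omega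
  have pn : φ n ≤ (a 0).natAbs + (a 1).natAbs := by
    simp only [hφ, hn, vec, if_true]
    have : e.1 = 0 ∨ e.1 = 1 := by omega
    rcases this with h | h <;> rw [h] <;> split_ifs <;> omega
  have eU : UU k = 2 * ss k + TT (ss k) + k + 1 := rfl
  have m := Nat.mul_le_mul_right (UU k) (Nat.succ_le_succ i1)
  have d0 := dn (ss k + (k + 1) * UU k) (i * UU k)
  simp only [Nat.succ_eq_add_one] at m
  rw [add_mul i, one_mul] at m
  generalize (k + 1) * UU k = V at *
  generalize i * UU k = W at *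
  rcases le_total n (ss k + V + W) with c | c
  · have := dn (ss k + V) (n - (ss k + V))
    rw [Nat.add_sub_cancel' (by omega)] at this
    omega
  rcases le_total n (ss k + V + W + UU k) with c' | c'
  · have := up (n - (ss k + V + W)) (by omega)
    rw [Nat.add_sub_cancel' c] at this
    omega
  · have := dn (ss k + V + W + UU k) (n - (ss k + V + W + UU k))
    rw [Nat.add_sub_cancel' c'] at this
    have := up _ le_rfl
    omega

noncomputable def pp (f : ℕ → ℕ) (n : ℕ) : ℝ := if bb f n then 1 else 0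

theorem pp_bd (f : ℕ → ℕ) (n : ℕ) : 0 ≤ pp f n ∧ pp f n ≤ 1 := by
  unfold pp; split_ifs <;> norm_num

theorem pp_le (n : ℕ) : pp (fun _ => 0) n ≤ pp id n := by
  unfold pp
  split_ifs with h1 h2 <;> try norm_num
  refine h2 ?_
  simp only [bb, decide_eq_true_eq] at h1 ⊢
  exact h1.imp fun k h => h.imp_right (Or.imp_left fun ⟨i, i1, i2⟩ => ⟨i, i1.trans k.zero_le, i2⟩)

instance (f : ℕ → ℕ) (n : ℕ) : IsProbabilityMeasure (ber (pp f n)) := ber_prob (pp_bd f n)

theorem pp_ae (f : ℕ → ℕ) : ∀ᵐ b ∂Measure.infinitePi fun n => ber (pp f n), b = bb f := by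
  have : ∀ n, ∀ᵐ b ∂Measure.infinitePi fun n => ber (pp f n), b n = bb f n := fun n => by
    refine (measurePreserving_eval_infinitePi (fun n => ber (pp f n)) n).quasiMeasurePreserving.ae
      (p := fun x => x = bb f n) ?_
    rw [ae_iff]
    by_cases h : bb f n = true <;> simp [ber, pp, h]
  filter_upwards [ae_all_iff.2 this] with b hb using funext hb

theorem two : (∀ᵐ ω ∂(Measure.infinitePi fun n => ber (pp id n)).prod (nu 2),
      Tendsto (fun n => √(∑ c, (walk ω.1 ω.2 n c : ℝ) ^ 2)) atTop atTop) ∧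
    ¬ ∀ᵐ ω ∂(Measure.infinitePi fun n => ber (pp (fun _ => 0) n)).prod (nu 2),
      Tendsto (fun n => √(∑ c, (walk ω.1 ω.2 n c : ℝ) ^ 2)) atTop atTop := by
  refine ⟨(Measure.ae_prod_iff_ae_ae (measurableSet_tendsto _ fun n => ?_)).2
    ((pp_ae id).mono fun b hb => hb ▸ trA), fun H => ?_⟩
  · refine Measurable.sqrt (Finset.measurable_sum _ fun c _ => Measurable.pow_const ?_ 2)
    simp only [walk, Int.cast_sum]
    exact Finset.measurable_sum _ fun k _ =>
      (measurable_of_countable fun e : Fin 2 × Bool => (vec e c : ℝ)).comp (step_meas k)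
  · obtain ⟨b, b1, rfl⟩ := ((Measure.ae_ae_of_ae_prod H).and (pp_ae _)).exists
    exact nonB b1

end Pool.Agent.H.MP_4881ff_pr
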